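import Pool.Agent.PEN.NvE
import Pool.Agent.Bloch.Gal6

/-! PEN / NvG (size 2): the degree is invariant under scalings.

`hf_scl`: `scl K c` (all `c s ≠ 0`) is a linear automorphism of `S` with inverse `scl K c⁻¹`
(`scl_inv`, `scl_inv'` in Gal6) which maps forms of degree `n` to forms of degree `n`
(`scl_coeff` or `scl_monomial`), and `f ∈ ctr K (scl K c) T ↔ scl K c f ∈ T`. So it restricts to a
linear isomorphism from `hI (ctr K (scl K c) T) n` onto `hI T n` and the dimensions are equal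
(`LinearEquiv.finrank_eq`, or `Submodule.map`/`comap` with an equivalence). -/

set_option linter.unusedSectionVars false

open MvPolynomial Filter

namespace Pool.Agent.Bloch.PEN

variable {K : Type} [Field K] {σ : Type} [Fintype σ]

theorem scl_homog (c : σ → K) {f : MvPolynomial σ K} {n : ℕ} (hf' : f.IsHomogeneous n) :
    (scl K c f).IsHomogeneous n := by
  intro d hd
  apply hf'
  intro h0
  apply hd
  rw [scl_coeff, h0, mul_zero]

private theorem hfAux (φ ψ : MvPolynomial σ K →ₐ[K] MvPolynomial σ K) (h1 : ∀ f, φ (ψ f) = f)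
    (h2 : ∀ f, ψ (φ f) = f) (n : ℕ)
    (h3 : ∀ f : MvPolynomial σ K, f.IsHomogeneous n → (φ f).IsHomogeneous n)
    (h4 : ∀ f : MvPolynomial σ K, f.IsHomogeneous n → (ψ f).IsHomogeneous n)
    (I J : Ideal (MvPolynomial σ K)) (hIJ : ∀ f, f ∈ J ↔ φ f ∈ I) : hf J n = hf I n := by
  let e : MvPolynomial σ K ≃ₗ[K] MvPolynomial σ K :=
    { φ.toLinearMap with
      invFun := ψ
      left_inv := h2
      right_inv := h1 }
  have h : (hI J n).map (e : MvPolynomial σ K →ₗ[K] MvPolynomial σ K) = hI I n := by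
    ext f
    constructor
    · rintro ⟨g, ⟨hg1, hg2⟩, rfl⟩
      exact ⟨(hIJ g).1 hg1, h3 g hg2⟩
    · rintro ⟨h5, h6⟩
      refine ⟨ψ f, ⟨(hIJ _).2 ?_, h4 f h6⟩, h1 f⟩
      rw [h1]
      exact h5
  unfold hf
  rw [← h, LinearEquiv.finrank_map_eq]

theorem hf_scl (c : σ → K) (hc : ∀ s, c s ≠ 0) (T : PrimeSpectrum (MvPolynomial σ K)) (n : ℕ) :
    hf (ctr K (scl K c) T).asIdeal n = hf T.asIdeal n :=
  hfAux (scl K c) (scl K (fun s => (c s)⁻¹)) (scl_inv c hc) (scl_inv' c hc) n
    (fun _ hf' => scl_homog c hf') (fun _ hf' => scl_homog _ hf') T.asIdeal _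
    (fun f => mem_ctr K (scl K c) T f)

private theorem dgAux (k : ℕ) (u v : ℕ → ℤ) (h : u = v) :
    (open Classical in if h : ∃ c, EC k u c then h.choose else 0) =
    (open Classical in if h : ∃ c, EC k v c then h.choose else 0) := by
  subst h
  rfl

theorem dg_scl (c : σ → K) (hc : ∀ s, c s ≠ 0) (T : PrimeSpectrum (MvPolynomial σ K)) (k : ℕ) :
    dg k (ctr K (scl K c) T).asIdeal = dg k T.asIdeal :=
  dgAux k _ _ (funext (hf_scl c hc T))

end Pool.Agent.Bloch.PEN
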