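import Pool.Agent.PEN.NvF
import Pool.Agent.PEN.NvG

/-! PEN / NvH (size 2): the degree map. `deg = degc 𝕜 k ∘ emb 𝕜 Z (k + 1)` (`emb` in Grade:
`emb_single`, `emb_res_div`). Values: `dg_pos` (a positive integer, `Int.toNat`). On the generators of
`RelH`: `emb (res (div f - div g)) = div f - div g` by `emb_res_div`, and both have the same degree by
`dg_div`. On the generators of `IGs`: `dg_scl`. -/

set_option linter.unusedSectionVars false

open MvPolynomial Filter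

namespace Pool.Agent.Bloch.PEN

variable {K : Type} [Field K] {σ : Type} [Fintype σ] (𝕜 : Type) [Field 𝕜] [CharZero 𝕜]

/-- the degree map: positive integers on subvarieties, zero on all relations -/
theorem exists_deg {Z : Set (PrimeSpectrum (MvPolynomial σ K))}
    (hup : ∀ p ∈ Z, ∀ q, p ≤ q → q ∈ Z) (k : ℕ) (Gm : Set (σ → K))
    (hG : ∀ c ∈ Gm, ∀ s, c s ≠ 0) :
    ∃ deg : (VH Z (k + 1) →₀ 𝕜) →ₗ[𝕜] 𝕜,
      (∀ V : VH Z (k + 1), ∃ n : ℕ, 0 < n ∧ deg (Finsupp.single V 1) = (n : 𝕜)) ∧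
      NN 𝕜 Z (k + 1) Gm ≤ LinearMap.ker deg := by
  have hs : ∀ V : VH Z (k + 1), (degc 𝕜 k ∘ₗ emb 𝕜 Z (k + 1)) (Finsupp.single V 1) =
      (dg k V.1.asIdeal : 𝕜) := by
    intro V
    rw [LinearMap.comp_apply, emb_single]
    unfold degc
    rw [Finsupp.linearCombination_single, one_smul]
  refine ⟨degc 𝕜 k ∘ₗ emb 𝕜 Z (k + 1), ?_, ?_⟩
  · intro V
    have hp := dg_pos (k := k) V.2.1 V.2.2.2
    refine ⟨(dg k V.1.asIdeal).toNat, by omega, ?_⟩
    rw [hs]
    have : ((dg k V.1.asIdeal).toNat : ℤ) = dg k V.1.asIdeal := Int.toNat_of_nonneg hp.le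
    rw [← Int.cast_natCast, this]
  · unfold NN
    refine sup_le ?_ ?_
    · unfold RelH
      rw [Submodule.span_le]
      rintro z ⟨W, n, f, g, hf, hg, hfW, hgW, rfl⟩
      rw [SetLike.mem_coe, LinearMap.mem_ker, map_sub, map_sub, LinearMap.comp_apply,
        LinearMap.comp_apply, emb_res_div 𝕜 Z (k + 1) hup W hf hfW,
        emb_res_div 𝕜 Z (k + 1) hup W hg hgW, dg_div 𝕜 W.2.1 W.2.2.2 hf hfW,
        dg_div 𝕜 W.2.1 W.2.2.2 hg hgW, sub_self]
    · unfold IGs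
      rw [Submodule.span_le]
      rintro z ⟨c, hc, V, V', hV, rfl⟩
      rw [SetLike.mem_coe, LinearMap.mem_ker, map_sub, hs, hs, hV,
        dg_scl c (hG c hc) V.1 k, sub_self]

end Pool.Agent.Bloch.PEN
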