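import Pool.Agent.Bloch.Pen.DescB

/-! PEN / PpA (size 2): proportionality modulo relations and a degree map (pure linear algebra).

`pp_deg`: `α = ∑ α(P) • single P`; `α ≠ 0` as `deg α ≠ 0`, choose `P` with `α P ≠ 0` (any element of
`VH Z k`). By `PP_iff` every `single Q 1` is `a Q • single P 1` modulo `NN`; so
`α ≡ b • single P 1` with `b = ∑ α(Q) a(Q)`; applying `deg` (zero on `NN`): `deg α = b * deg P`, so
`b ≠ 0`. Then `single V 1 ≡ a V • single P 1 ≡ (a V / b) • α`.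

`pp_of`: for `V, w`: `single V 1 ≡ c • α`, `single w 1 ≡ c' • α`; `deg (single w 1) = c' * deg α`
is not zero, so `c' ≠ 0` and `single V 1 ≡ (c / c') • single w 1`. -/

set_option linter.unusedSectionVars false

open MvPolynomial

namespace Pool.Agent.Bloch.PEN

variable {K : Type} [Field K] (𝕜 : Type) [Field 𝕜] [CharZero 𝕜] {σ : Type} [Fintype σ]
variable {Z : Set (PrimeSpectrum (MvPolynomial σ K))} {k : ℕ} {Gm : Set (σ → K)}

private theorem PpA_all (h : PP 𝕜 Z k Gm) (P : VH Z k) (x : VH Z k →₀ 𝕜) :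
    ∃ b : 𝕜, x - b • Finsupp.single P (1 : 𝕜) ∈ NN 𝕜 Z k Gm := by
  induction x using Finsupp.induction_linear with
  | zero => exact ⟨0, by rw [zero_smul, sub_zero]; exact Submodule.zero_mem _⟩
  | add x y hx hy =>
    obtain ⟨b, hb⟩ := hx
    obtain ⟨c, hc⟩ := hy
    refine ⟨b + c, ?_⟩
    have h1 : x + y - (b + c) • Finsupp.single P (1 : 𝕜) =
        (x - b • Finsupp.single P (1 : 𝕜)) + (y - c • Finsupp.single P (1 : 𝕜)) := by
      module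
    rw [h1]
    exact Submodule.add_mem _ hb hc
  | single Q c =>
    obtain ⟨a, ha⟩ := (PP_iff 𝕜 Z k Gm).1 h Q P
    refine ⟨c * a, ?_⟩
    have h1 : Finsupp.single Q c - (c * a) • Finsupp.single P (1 : 𝕜) =
        c • (Finsupp.single Q (1 : 𝕜) - a • Finsupp.single P (1 : 𝕜)) := by
      have h2 : Finsupp.single Q c = c • Finsupp.single Q (1 : 𝕜) := by
        rw [Finsupp.smul_single, smul_eq_mul, mul_one]
      rw [h2]
      module
    rw [h1]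
    exact Submodule.smul_mem _ _ ha

theorem pp_deg (h : PP 𝕜 Z k Gm) (deg : (VH Z k →₀ 𝕜) →ₗ[𝕜] 𝕜)
    (hker : ∀ z ∈ NN 𝕜 Z k Gm, deg z = 0) {α : VH Z k →₀ 𝕜} (hα : deg α ≠ 0) (V : VH Z k) :
    ∃ c : 𝕜, Finsupp.single V (1 : 𝕜) - c • α ∈ NN 𝕜 Z k Gm := by
  obtain ⟨b, hb⟩ := PpA_all 𝕜 h V α
  have h1 := hker _ hb
  rw [map_sub, map_smul, sub_eq_zero, smul_eq_mul] at h1
  have hb0 : b ≠ 0 := by
    rintro rfl
    rw [zero_mul] at h1
    exact hα h1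
  refine ⟨b⁻¹, ?_⟩
  have h2 : Finsupp.single V (1 : 𝕜) - b⁻¹ • α =
      (-b⁻¹) • (α - b • Finsupp.single V (1 : 𝕜)) := by
    rw [smul_sub, smul_smul, neg_mul, inv_mul_cancel₀ hb0]
    module
  rw [h2]
  exact Submodule.smul_mem _ _ hb

theorem pp_of (deg : (VH Z k →₀ 𝕜) →ₗ[𝕜] 𝕜) (hpos : ∀ V : VH Z k, deg (Finsupp.single V 1) ≠ 0)
    (hker : ∀ z ∈ NN 𝕜 Z k Gm, deg z = 0) {α : VH Z k →₀ 𝕜}
    (h : ∀ V : VH Z k, ∃ c : 𝕜, Finsupp.single V (1 : 𝕜) - c • α ∈ NN 𝕜 Z k Gm) :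
    PP 𝕜 Z k Gm := by
  rw [PP_iff]
  intro V w
  obtain ⟨c, hc⟩ := h V
  obtain ⟨c', hc'⟩ := h w
  have h1 := hker _ hc'
  rw [map_sub, map_smul, sub_eq_zero, smul_eq_mul] at h1
  have hc0 : c' ≠ 0 := by
    rintro rfl
    rw [zero_mul] at h1
    exact hpos w h1
  refine ⟨c / c', ?_⟩
  have h2 : Finsupp.single V (1 : 𝕜) - (c / c') • Finsupp.single w (1 : 𝕜) =
      (Finsupp.single V (1 : 𝕜) - c • α) - (c / c') • (Finsupp.single w (1 : 𝕜) - c' • α) := by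
    rw [smul_sub, smul_smul, div_mul_cancel₀ _ hc0]
    module
  rw [h2]
  exact Submodule.sub_mem _ hc (Submodule.smul_mem _ _ hc')

/-- rank at most one, with a degree map -/
theorem pp_of_rank (deg : (VH Z k →₀ 𝕜) →ₗ[𝕜] 𝕜)
    (hpos : ∀ V : VH Z k, deg (Finsupp.single V 1) ≠ 0)
    (hker : ∀ z ∈ NN 𝕜 Z k Gm, deg z = 0)
    (h : Module.rank 𝕜 ((VH Z k →₀ 𝕜) ⧸ NN 𝕜 Z k Gm) ≤ 1) : PP 𝕜 Z k Gm := by
  obtain ⟨v₀, hv₀⟩ := rank_le_one_iff.1 h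
  obtain ⟨α, rfl⟩ := Submodule.Quotient.mk_surjective _ v₀
  refine pp_of 𝕜 deg hpos hker (α := α) fun V => ?_
  obtain ⟨r, hr⟩ := hv₀ (Submodule.Quotient.mk (Finsupp.single V (1 : 𝕜)))
  refine ⟨r, ?_⟩
  rw [← Submodule.Quotient.mk_smul, eq_comm, Submodule.Quotient.eq] at hr
  exact hr

theorem rank_of_pp (h : PP 𝕜 Z k Gm) :
    Module.rank 𝕜 ((VH Z k →₀ 𝕜) ⧸ NN 𝕜 Z k Gm) ≤ 1 := by
  rw [rank_le_one_iff]
  rcases isEmpty_or_nonempty (VH Z k) with he | ⟨⟨P⟩⟩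
  · refine ⟨0, fun v => ⟨0, ?_⟩⟩
    obtain ⟨x, rfl⟩ := Submodule.Quotient.mk_surjective _ v
    have hx : x = 0 := Finsupp.ext fun a => he.elim a
    rw [hx, smul_zero, Submodule.Quotient.mk_zero]
  · refine ⟨Submodule.Quotient.mk (Finsupp.single P (1 : 𝕜)), fun v => ?_⟩
    obtain ⟨x, rfl⟩ := Submodule.Quotient.mk_surjective _ v
    obtain ⟨b, hb⟩ := PpA_all 𝕜 h P x
    refine ⟨b, ?_⟩
    rw [← Submodule.Quotient.mk_smul, eq_comm, Submodule.Quotient.eq]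
    exact hb

end Pool.Agent.Bloch.PEN
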