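import Pool.Agent.Bloch.Pen.DescB
import Pool.Agent.H11.Sep.RH
import Pool.Agent.Bloch.Gal6

/-! PEN / AvA (size 3): the action of scalings on cycles and on rational equivalence. -/

set_option linter.unusedSectionVars false

open MvPolynomial

namespace Pool.Agent.Bloch.PEN

open Pool.Agent.Bloch.Sep

variable {K : Type} [Field K] (𝕜 : Type) [Field 𝕜] [CharZero 𝕜] {σ : Type} [Fintype σ]

/-- the action of a scaling on cycles -/
noncomputable def mv (c : σ → K) : (PrimeSpectrum (MvPolynomial σ K) →₀ 𝕜) →ₗ[𝕜]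
    (PrimeSpectrum (MvPolynomial σ K) →₀ 𝕜) := Finsupp.lmapDomain 𝕜 𝕜 (ctr K (scl K c))

theorem mv_single (c : σ → K) (T : PrimeSpectrum (MvPolynomial σ K)) (x : 𝕜) :
    mv 𝕜 c (Finsupp.single T x) = Finsupp.single (ctr K (scl K c) T) x := Finsupp.mapDomain_single

/-- the image of a form under a scaling is a form -/
theorem scl_form (c : σ → K) {f : MvPolynomial σ K} {n : ℕ} (hf : f.IsHomogeneous n) :
    (scl K c f).IsHomogeneous n := by
  intro m hm
  rw [scl_coeff] at hm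
  exact hf (right_ne_zero_of_mul hm)

theorem AvA_hc (c : σ → K) (f : MvPolynomial σ K) (n : ℕ) :
    homogeneousComponent n (scl K c f) = scl K c (homogeneousComponent n f) := by
  classical
  ext m
  rw [coeff_homogeneousComponent, scl_coeff, scl_coeff, coeff_homogeneousComponent]
  split_ifs
  · rfl
  · rw [mul_zero]

theorem homP_scl (c : σ → K) {T : PrimeSpectrum (MvPolynomial σ K)} (hT : HomP T) :
    HomP (ctr K (scl K c) T) := by
  intro f hf n
  rw [mem_ctr] at hf ⊢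
  rw [← AvA_hc]
  exact hT _ hf n

theorem AvA_ctr_ctr (c : σ → K) (hc : ∀ s, c s ≠ 0) (Q : PrimeSpectrum (MvPolynomial σ K)) :
    ctr K (scl K c) (ctr K (scl K (fun s => (c s)⁻¹)) Q) = Q := by
  ext f
  rw [mem_ctr, mem_ctr, scl_inv' c hc]

theorem mv_div (c : σ → K) (hc : ∀ s, c s ≠ 0) {k : ℕ} {W : PrimeSpectrum (MvPolynomial σ K)}
    (hW : dl K W = k + 1) {f : MvPolynomial σ K} (hf : f ∉ (ctr K (scl K c) W).asIdeal) :
    mv 𝕜 c (divCyc K 𝕜 k W (scl K c f)) = divCyc K 𝕜 k (ctr K (scl K c) W) f := by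
  ext Q'
  obtain ⟨Q, rfl⟩ : ∃ Q, Q' = ctr K (scl K c) Q := ⟨_, (AvA_ctr_ctr c hc Q').symm⟩
  have hf' : scl K c f ∉ W.asIdeal := hf
  have hW' : dl K (ctr K (scl K c) W) = k + 1 := by rw [dl_scl c hc, hW]
  have h0 : mv 𝕜 c (divCyc K 𝕜 k W (scl K c f)) (ctr K (scl K c) Q) =
      divCyc K 𝕜 k W (scl K c f) Q := Finsupp.mapDomain_apply (ctr_scl_inj c hc) _ _
  rw [h0]
  unfold divCyc
  rw [cyc_apply K 𝕜 (bd_div K hW' hf), cyc_apply K 𝕜 (bd_div K hW hf'), dl_scl c hc]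
  split_ifs with h
  · have e3 := len_uset_div (Q₀ := W) (scl_frac c hc) (bot_uset (scl K c) Q)
      (Submonoid.one_mem _)
      (show scl K c f * scl K c 1 = scl K c f by rw [map_one, mul_one])
    rw [e3]
  · rfl

theorem mv_RH (c : σ → K) (hc : ∀ s, c s ≠ 0) {k : ℕ}
    {Z : Set (PrimeSpectrum (MvPolynomial σ K))} (hZ : ∀ Q ∈ Z, ctr K (scl K c) Q ∈ Z)
    {z : PrimeSpectrum (MvPolynomial σ K) →₀ 𝕜} (hz : z ∈ RH 𝕜 k Z) : mv 𝕜 c z ∈ RH 𝕜 k Z := by
  refine Submodule.span_induction (p := fun z _ => mv 𝕜 c z ∈ RH 𝕜 k Z) ?_ ?_ ?_ ?_ hz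
  · rintro z ⟨W, hWZ, hW, hd, n, f, g, hf, hg, hfW, hgW, rfl⟩
    have key : ∀ h : MvPolynomial σ K, h ∉ W.asIdeal →
        scl K (fun s => (c s)⁻¹) h ∉ (ctr K (scl K c) W).asIdeal ∧
        mv 𝕜 c (divCyc K 𝕜 k W h) =
          divCyc K 𝕜 k (ctr K (scl K c) W) (scl K (fun s => (c s)⁻¹) h) := by
      intro h hh
      have h1 : scl K (fun s => (c s)⁻¹) h ∉ (ctr K (scl K c) W).asIdeal := by
        rw [mem_ctr, scl_inv c hc]; exact hh
      refine ⟨h1, ?_⟩
      rw [← mv_div 𝕜 c hc hd h1, scl_inv c hc]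
    rw [map_sub, (key f hfW).2, (key g hgW).2]
    exact mem_RH 𝕜 (hZ W hWZ) (homP_scl c hW) (by rw [dl_scl c hc]; exact hd) (scl_form _ hf)
      (scl_form _ hg) (key f hfW).1 (key g hgW).1
  · rw [map_zero]; exact Submodule.zero_mem _
  · intro x y _ _ hx hy
    rw [map_add]; exact Submodule.add_mem _ hx hy
  · intro a x _ hx
    rw [map_smul]; exact Submodule.smul_mem _ _ hx

end Pool.Agent.Bloch.PEN
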