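import Pool.Agent.PEN.AvA

/-! PEN / AvB (size 3): the sum over a finite group of scalings. -/

set_option linter.unusedSectionVars false

open MvPolynomial

namespace Pool.Agent.Bloch.PEN

open Pool.Agent.Bloch.Sep

variable {K : Type} [Field K] (𝕜 : Type) [Field 𝕜] [CharZero 𝕜] {σ : Type} [Fintype σ]

/-- a finite group of scalings -/
structure Grp (Gf : Finset (σ → K)) : Prop where
  one : (fun _ => 1) ∈ Gf
  mul : ∀ c ∈ Gf, ∀ c' ∈ Gf, (fun s => c s * c' s) ∈ Gf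
  nz : ∀ c ∈ Gf, ∀ s, c s ≠ 0

/-- the sum over the group -/
noncomputable def av (Gf : Finset (σ → K)) : (PrimeSpectrum (MvPolynomial σ K) →₀ 𝕜) →ₗ[𝕜]
    (PrimeSpectrum (MvPolynomial σ K) →₀ 𝕜) := ∑ c ∈ Gf, mv 𝕜 c

theorem av_apply (Gf : Finset (σ → K)) (z : PrimeSpectrum (MvPolynomial σ K) →₀ 𝕜) :
    av 𝕜 Gf z = ∑ c ∈ Gf, mv 𝕜 c z := by
  unfold av
  rw [LinearMap.sum_apply]

theorem AvB_mv_mv (c c₀ : σ → K) (z : PrimeSpectrum (MvPolynomial σ K) →₀ 𝕜) :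
    mv 𝕜 c (mv 𝕜 c₀ z) = mv 𝕜 (fun s => c s * c₀ s) z := by
  induction z using Finsupp.induction_linear with
  | zero => simp only [map_zero]
  | add x y hx hy => rw [map_add, map_add, map_add, hx, hy]
  | single T x =>
    rw [mv_single, mv_single, mv_single]
    congr 1
    ext f
    rw [mem_ctr, mem_ctr, mem_ctr, scl_scl]
    have : (fun l => c₀ l * c l) = fun s => c s * c₀ s := by
      funext l
      exact mul_comm _ _
    rw [this]

theorem av_shift {Gf : Finset (σ → K)} (hG : Grp Gf) {c₀ : σ → K} (h0 : c₀ ∈ Gf)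
    (z : PrimeSpectrum (MvPolynomial σ K) →₀ 𝕜) : av 𝕜 Gf (mv 𝕜 c₀ z) = av 𝕜 Gf z := by
  classical
  rw [av_apply, av_apply]
  simp only [AvB_mv_mv]
  have hinj : Set.InjOn (fun (c : σ → K) s => c s * c₀ s) (Gf : Set (σ → K)) := by
    intro c _ c' _ h
    funext s
    exact mul_right_cancel₀ (hG.nz c₀ h0 s) (congrFun h s)
  have himg : Gf.image (fun (c : σ → K) s => c s * c₀ s) = Gf := by
    apply Finset.eq_of_subset_of_card_le
    · intro c hc
      obtain ⟨c', hc', rfl⟩ := Finset.mem_image.1 hc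
      exact hG.mul c' hc' c₀ h0
    · rw [Finset.card_image_of_injOn hinj]
  conv_rhs => rw [← himg]
  rw [Finset.sum_image hinj]

theorem av_NN {Gf : Finset (σ → K)} (hG : Grp Gf) {k : ℕ}
    {Z : Set (PrimeSpectrum (MvPolynomial σ K))} (hup : ∀ p ∈ Z, ∀ q, p ≤ q → q ∈ Z)
    (hZ : ∀ c ∈ Gf, ∀ Q ∈ Z, ctr K (scl K c) Q ∈ Z) {y : VH Z k →₀ 𝕜}
    (hy : y ∈ NN 𝕜 Z k (Gf : Set (σ → K))) : av 𝕜 Gf (inc 𝕜 Z k y) ∈ RH 𝕜 k Z := by
  have key : NN 𝕜 Z k (Gf : Set (σ → K)) ≤ (RH 𝕜 k Z).comap (av 𝕜 Gf ∘ₗ inc 𝕜 Z k) := by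
    refine sup_le ?_ ?_
    · intro z hz
      rw [Submodule.mem_comap, LinearMap.comp_apply, av_apply]
      exact Submodule.sum_mem _ (fun c hc => mv_RH 𝕜 c (hG.nz c hc) (hZ c hc)
        (inc_relH 𝕜 hup hz))
    · refine Submodule.span_le.2 ?_
      rintro z ⟨c, hc, V, V', hV, rfl⟩
      have hc' : c ∈ Gf := hc
      change _ ∈ Submodule.comap _ _
      rw [Submodule.mem_comap, LinearMap.comp_apply, map_sub, inc_single, inc_single, hV,
        ← mv_single, map_sub, av_shift 𝕜 hG hc', sub_self]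
      exact Submodule.zero_mem _
  exact key hy

theorem av_sub {Gf : Finset (σ → K)} (hG : Grp Gf) {k : ℕ}
    {Z : Set (PrimeSpectrum (MvPolynomial σ K))}
    (hZ : ∀ c ∈ Gf, ∀ Q ∈ Z, ctr K (scl K c) Q ∈ Z) (z : VH Z k →₀ 𝕜) :
    (Gf.card : 𝕜) • z - res 𝕜 Z k (av 𝕜 Gf (inc 𝕜 Z k z)) ∈ IGs 𝕜 Z k (Gf : Set (σ → K)) := by
  induction z using Finsupp.induction_linear with
  | zero => simp only [map_zero, smul_zero, sub_zero]; exact Submodule.zero_mem _
  | add x y hx hy =>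
    rw [smul_add, map_add, map_add, map_add, add_sub_add_comm]
    exact Submodule.add_mem _ hx hy
  | single V x =>
    rw [inc_single, av_apply, map_sum]
    have h0 : (Gf.card : 𝕜) • Finsupp.single V x = ∑ c ∈ Gf, Finsupp.single V x := by
      rw [Finset.sum_const, Nat.cast_smul_eq_nsmul]
    rw [h0, ← Finset.sum_sub_distrib]
    refine Submodule.sum_mem _ (fun c hc => ?_)
    rw [mv_single]
    have h := (res_single 𝕜 Z k (⟨ctr K (scl K c) V.1, homP_scl c V.2.1, hZ c hc _ V.2.2.1, by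
      rw [dl_scl c (hG.nz c hc)]; exact V.2.2.2⟩ : VH Z k) x)
    rw [h]
    have h2 : ∀ V₀ : VH Z k, Finsupp.single V₀ x = x • Finsupp.single V₀ (1 : 𝕜) := fun V₀ => by
      rw [Finsupp.smul_single, smul_eq_mul, mul_one]
    set V' : VH Z k := ⟨ctr K (scl K c) V.1, homP_scl c V.2.1, hZ c hc _ V.2.2.1, by
      rw [dl_scl c (hG.nz c hc)]; exact V.2.2.2⟩ with hV'
    rw [h2 V, h2 V', ← smul_sub]
    apply Submodule.smul_mem
    rw [← neg_sub]
    exact Submodule.neg_mem _ (Submodule.subset_span ⟨c, hc, V, _, rfl, rfl⟩)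

end Pool.Agent.Bloch.PEN
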