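import Pool.Agent.PEN.AvB
import Pool.Agent.Pcl.ExtB

/-! PEN / ExE (size 3): scalings and the extension of the base field.

`eT_scl`: `ctr (scl K c') (eT T) = eT (ctr (scl K c) T)` for `c' s = algebraMap (c s)`. `⊇`: `eT` is
generated by `bc f`, `f ∈ ctr (scl c) T` (`eT_asIdeal`), and `scl c' (bc f) = bc (scl c f)`
(`scl_bc`-type statement: Gal6 has it for finite Galois extensions; here prove it with
`scl_coeff` and `coeff_map`). Equality: both have the same dimension (`dl_scl`, `dl_eT`,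
`eq_of_le_of_dl` over `Fn K`). Then `ex (mv c z) = mv c' (ex z)` on `single T x`, and the same for the
sum over the group `Gf' = Gf.image (fun c s => algebraMap (c s))` (the map `c ↦ c'` is injective). -/

set_option linter.unusedSectionVars false

open MvPolynomial

namespace Pool.Agent.Bloch.PEN

open Pool.Agent.Bloch.Sep Pool.Agent.Bloch.Pcl

attribute [local instance] MvPolynomial.algebraMvPolynomial

variable {K : Type} [Field K] (𝕜 : Type) [Field 𝕜] [CharZero 𝕜] {σ : Type} [Fintype σ]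

/-- a scaling over the bigger field -/
noncomputable def upS (c : σ → K) : σ → Fn K := fun s => algebraMap K (Fn K) (c s)

open Classical in
/-- the group over the bigger field -/
noncomputable def upG (Gf : Finset (σ → K)) : Finset (σ → Fn K) := Gf.image upS

private theorem ExE_up_inj : Function.Injective (upS : (σ → K) → (σ → Fn K)) := by
  intro c c' h
  funext s
  exact (algebraMap K (Fn K)).injective (congrFun h s)

private theorem ExE_coeff_bc (f : MvPolynomial σ K) (m : σ →₀ ℕ) :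
    coeff m (bc f) = algebraMap K (Fn K) (coeff m f) := by
  change coeff m (map (algebraMap K (Fn K)) f) = _
  rw [coeff_map]

theorem grp_up {Gf : Finset (σ → K)} (hG : Grp Gf) : Grp (upG Gf) := by
  classical
  have hmem : ∀ c' : σ → Fn K, c' ∈ upG Gf ↔ ∃ c ∈ Gf, upS c = c' := by
    intro c'
    unfold upG
    rw [Finset.mem_image]
  refine ⟨?_, ?_, ?_⟩
  · rw [hmem]
    refine ⟨_, hG.one, ?_⟩
    funext s
    exact map_one _
  · intro c' hc' d' hd'
    rw [hmem] at hc' hd' ⊢
    obtain ⟨c, hc, rfl⟩ := hc'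
    obtain ⟨d, hd, rfl⟩ := hd'
    refine ⟨_, hG.mul c hc d hd, ?_⟩
    funext s
    exact map_mul _ _ _
  · intro c' hc' s
    rw [hmem] at hc'
    obtain ⟨c, hc, rfl⟩ := hc'
    exact (map_ne_zero _).2 (hG.nz c hc s)

theorem mem_upG {Gf : Finset (σ → K)} : ((upG Gf : Finset (σ → Fn K)) : Set (σ → Fn K)) =
    {c' | ∃ c ∈ (Gf : Set (σ → K)), c' = fun s => algebraMap K (Fn K) (c s)} := by
  classical
  ext c'
  unfold upG
  rw [Finset.mem_coe, Finset.mem_image]
  constructor
  · rintro ⟨c, hc, rfl⟩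
    exact ⟨c, hc, rfl⟩
  · rintro ⟨c, hc, rfl⟩
    exact ⟨c, hc, rfl⟩

theorem scl_up (c : σ → K) (f : MvPolynomial σ K) :
    scl (Fn K) (upS c) (bc f) = bc (scl K c f) := by
  ext m
  rw [scl_coeff, ExE_coeff_bc, ExE_coeff_bc, scl_coeff, map_mul]
  congr 1
  rw [Algebra.algebraMap_self, Algebra.algebraMap_self, RingHom.id_apply, RingHom.id_apply,
    Finsupp.prod, Finsupp.prod, map_prod]
  exact Finset.prod_congr rfl fun s _ => (map_pow _ _ _).symm

theorem scl_up_mu (c : σ → K) (f g : MvPolynomial σ K) :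
    scl (Fn K) (upS c) (bc f + C (Pcl.mu K) * bc g) =
      bc (scl K c f) + C (Pcl.mu K) * bc (scl K c g) := by
  rw [map_add, map_mul, scl_C, scl_up, scl_up]

theorem eT_scl (c : σ → K) (hc : ∀ s, c s ≠ 0) (T : PrimeSpectrum (MvPolynomial σ K)) :
    ctr (Fn K) (scl (Fn K) (upS c)) (eT T) = eT (ctr K (scl K c) T) := by
  symm
  have hc' : ∀ s, upS c s ≠ 0 := fun s => (map_ne_zero _).2 (hc s)
  apply eq_of_le_of_dl (Fn K)
  · change (eT (ctr K (scl K c) T)).asIdeal ≤ _
    rw [eT_asIdeal, Ideal.map_le_iff_le_comap]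
    intro f hf
    rw [Ideal.mem_comap, mem_ctr, scl_up, bc_mem_eT]
    exact (mem_ctr _ _ _ _).1 hf
  · rw [dl_eT, dl_scl c hc, dl_scl (upS c) hc', dl_eT]

theorem ex_mv (c : σ → K) (hc : ∀ s, c s ≠ 0) (z : PrimeSpectrum (MvPolynomial σ K) →₀ 𝕜) :
    ex 𝕜 (mv 𝕜 c z) = mv 𝕜 (upS c) (ex 𝕜 z) := by
  induction z using Finsupp.induction_linear with
  | zero => simp only [map_zero]
  | add x y hx hy => rw [map_add, map_add, hx, hy, map_add, map_add]
  | single T x => rw [mv_single, ex_single, ex_single, mv_single, eT_scl c hc]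

theorem ex_av {Gf : Finset (σ → K)} (hG : Grp Gf) (z : PrimeSpectrum (MvPolynomial σ K) →₀ 𝕜) :
    ex 𝕜 (av 𝕜 Gf z) = av 𝕜 (upG Gf) (ex 𝕜 z) := by
  classical
  rw [av_apply, av_apply, map_sum]
  unfold upG
  rw [Finset.sum_image (fun x _ y _ h => ExE_up_inj h)]
  exact Finset.sum_congr rfl fun c hc => ex_mv 𝕜 c (hG.nz c hc) z

end Pool.Agent.Bloch.PEN
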