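import Pool.Agent.Bloch.Pen.DescB
import Pool.Agent.H11.Sep.RH

/-! PEN / NvA (size 2): iterated differences of integer functions.

`EC k h c`: the `k`-th difference of `h` is eventually equal to `c`.
All statements are elementary: `dif` is additive and commutes with shifts (`dif^[k]` too, by
induction), and `Filter.Eventually` on `atTop` is stable under shifts
(`Filter.eventually_atTop`, or `tendsto_add_atTop_nat`).

* `EC.zero_of`: if `EC k h c` then `EC (k + 1) h 0` (the difference of an eventually constant
  function is eventually zero; `Function.iterate_succ_apply'`).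
* `exists_EC`: if `EC (k + 1) h 0` then `EC k h c` for some `c`: a function with eventually zero
  difference is eventually constant.
* `EC_dif`: `EC (k + 1) h c ↔ EC k (dif h) c` by `Function.iterate_succ_apply`.
* `EC.neg`: if `EC k h c` with `c < 0` then `h n < 0` eventually. Induction on `k`, generalizing `h`:
  `k = 0` clear; for `k + 1`, `dif h` is eventually negative, so `≤ -1`, so `h (n₀ + m) ≤ h n₀ - m`. -/

open Filter

namespace Pool.Agent.Bloch.PEN

/-- the difference of a function -/
def dif (h : ℕ → ℤ) : ℕ → ℤ := fun n => h (n + 1) - h n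

/-- the `k`-th difference is eventually `c` -/
def EC (k : ℕ) (h : ℕ → ℤ) (c : ℤ) : Prop := ∀ᶠ n in atTop, (dif^[k] h) n = c

private theorem NvA_add (k : ℕ) (h h' : ℕ → ℤ) :
    dif^[k] (fun n => h n + h' n) = fun n => dif^[k] h n + dif^[k] h' n := by
  induction k generalizing h h' with
  | zero => rfl
  | succ k ih =>
    rw [Function.iterate_succ_apply, Function.iterate_succ_apply, Function.iterate_succ_apply,
      ← ih]
    congr 1
    funext n
    simp only [dif]
    ring

private theorem NvA_sub (k : ℕ) (h h' : ℕ → ℤ) :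
    dif^[k] (fun n => h n - h' n) = fun n => dif^[k] h n - dif^[k] h' n := by
  induction k generalizing h h' with
  | zero => rfl
  | succ k ih =>
    rw [Function.iterate_succ_apply, Function.iterate_succ_apply, Function.iterate_succ_apply,
      ← ih]
    congr 1
    funext n
    simp only [dif]
    ring

private theorem NvA_shift (k e : ℕ) (h : ℕ → ℤ) :
    dif^[k] (fun n => h (n + e)) = fun n => dif^[k] h (n + e) := by
  induction k generalizing h with
  | zero => rfl
  | succ k ih =>
    rw [Function.iterate_succ_apply, Function.iterate_succ_apply, ← ih]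
    congr 1
    funext n
    simp only [dif]
    rw [show n + 1 + e = n + e + 1 by omega]

theorem EC_dif {k : ℕ} {h : ℕ → ℤ} {c : ℤ} : EC (k + 1) h c ↔ EC k (dif h) c := by
  unfold EC
  rw [Function.iterate_succ_apply]

theorem EC.congr {k : ℕ} {h h' : ℕ → ℤ} {c : ℤ} (H : EC k h c) (e : ∀ᶠ n in atTop, h n = h' n) :
    EC k h' c := by
  induction k generalizing h h' with
  | zero =>
    unfold EC at H ⊢
    filter_upwards [H, e] with n h1 h2
    rw [Function.iterate_zero, id_eq] at h1 ⊢
    rw [← h2, h1]
  | succ k ih =>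
    rw [EC_dif] at H ⊢
    apply ih H
    filter_upwards [e, (tendsto_add_atTop_nat 1).eventually e] with n h1 h2
    simp only [dif]
    rw [h1, h2]

theorem EC.unique {k : ℕ} {h : ℕ → ℤ} {c c' : ℤ} (H : EC k h c) (H' : EC k h c') : c = c' := by
  obtain ⟨n, h1, h2⟩ := (H.and H').exists
  rw [← h1, h2]

theorem EC.add {k : ℕ} {h h' : ℕ → ℤ} {c c' : ℤ} (H : EC k h c) (H' : EC k h' c') :
    EC k (fun n => h n + h' n) (c + c') := by
  unfold EC at H H' ⊢
  rw [NvA_add]
  filter_upwards [H, H'] with n h1 h2
  rw [h1, h2]

theorem EC.sub {k : ℕ} {h h' : ℕ → ℤ} {c c' : ℤ} (H : EC k h c) (H' : EC k h' c') :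
    EC k (fun n => h n - h' n) (c - c') := by
  unfold EC at H H' ⊢
  rw [NvA_sub]
  filter_upwards [H, H'] with n h1 h2
  rw [h1, h2]

theorem EC_zero (k : ℕ) : EC k (fun _ => 0) 0 := by
  induction k with
  | zero => exact Filter.Eventually.of_forall fun n => rfl
  | succ k ih =>
    rw [EC_dif]
    have : dif (fun _ => 0) = fun _ => 0 := by
      funext n
      simp [dif]
    rw [this]
    exact ih

theorem EC.shift {k : ℕ} {h : ℕ → ℤ} {c : ℤ} (H : EC k h c) (e : ℕ) :
    EC k (fun n => h (n + e)) c := by
  unfold EC at H ⊢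
  rw [NvA_shift]
  exact (tendsto_add_atTop_nat e).eventually H

theorem EC.of_shift {k : ℕ} {h : ℕ → ℤ} {c : ℤ} (e : ℕ) (H : EC k (fun n => h (n + e)) c) :
    EC k h c := by
  unfold EC at H ⊢
  rw [NvA_shift] at H
  rw [eventually_atTop] at H ⊢
  obtain ⟨a, ha⟩ := H
  refine ⟨a + e, fun n hn => ?_⟩
  have := ha (n - e) (by omega)
  dsimp only at this
  rwa [show n - e + e = n by omega] at this

theorem EC.zero_of {k : ℕ} {h : ℕ → ℤ} {c : ℤ} (H : EC k h c) : EC (k + 1) h 0 := by
  unfold EC at H ⊢
  rw [Function.iterate_succ_apply']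
  filter_upwards [H, (tendsto_add_atTop_nat 1).eventually H] with n h1 h2
  simp only [dif] at h1 h2 ⊢
  rw [h1, h2, sub_self]

theorem EC.mono {j k : ℕ} {h : ℕ → ℤ} (H : EC j h 0) (hjk : j ≤ k) : EC k h 0 := by
  induction k, hjk using Nat.le_induction with
  | base => exact H
  | succ k _ ih => exact ih.zero_of

theorem exists_EC {k : ℕ} {h : ℕ → ℤ} (H : EC (k + 1) h 0) : ∃ c, EC k h c := by
  unfold EC at H ⊢
  rw [Function.iterate_succ_apply', eventually_atTop] at H
  obtain ⟨a, ha⟩ := H
  refine ⟨dif^[k] h a, ?_⟩
  rw [eventually_atTop]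
  refine ⟨a, fun n hn => ?_⟩
  induction n, hn using Nat.le_induction with
  | base => rfl
  | succ n hn ih =>
    have h1 := ha n hn
    have h2 : dif (dif^[k] h) n = dif^[k] h (n + 1) - dif^[k] h n := rfl
    rw [h2] at h1
    rw [← ih]
    linarith

/-- the difference of a function and its shift by `m` -/
theorem EC.diff_shift {k : ℕ} {h : ℕ → ℤ} {c : ℤ} (H : EC (k + 1) h c) (m : ℕ) :
    EC k (fun n => h (n + m) - h n) (m * c) := by
  rw [EC_dif] at H
  induction m with
  | zero =>
    have : (fun n => h (n + 0) - h n) = fun _ => 0 := by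
      funext n
      simp
    rw [this, Nat.cast_zero, zero_mul]
    exact EC_zero k
  | succ m ih =>
    have h1 := (H.shift m).add ih
    have e1 : (fun n => dif h (n + m) + (h (n + m) - h n)) = fun n => h (n + (m + 1)) - h n := by
      funext n
      simp only [dif]
      rw [← add_assoc]
      ring
    rw [e1] at h1
    have e2 : c + (m : ℤ) * c = ((m + 1 : ℕ) : ℤ) * c := by push_cast; ring
    rw [e2] at h1
    exact h1

theorem EC.neg {k : ℕ} {h : ℕ → ℤ} {c : ℤ} (H : EC k h c) (hc : c < 0) :
    ∀ᶠ n in atTop, h n < 0 := by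
  induction k generalizing h with
  | zero =>
    unfold EC at H
    filter_upwards [H] with n h1
    rw [Function.iterate_zero, id_eq] at h1
    rw [h1]
    exact hc
  | succ k ih =>
    rw [EC_dif] at H
    have h1 := ih H
    rw [eventually_atTop] at h1 ⊢
    obtain ⟨a, ha⟩ := h1
    have h2 : ∀ m : ℕ, h (a + m) ≤ h a - m := by
      intro m
      induction m with
      | zero => simp
      | succ m ihm =>
        have h3 := ha (a + m) (by omega)
        simp only [dif] at h3
        rw [← add_assoc]
        push_cast
        linarith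
    refine ⟨a + ((h a).toNat + 1), fun n hn => ?_⟩
    have h4 := h2 (n - a)
    rw [show a + (n - a) = n by omega] at h4
    have h5 : h a ≤ (h a).toNat := Int.self_le_toNat _
    have h6 : ((h a).toNat : ℤ) + 1 ≤ ((n - a : ℕ) : ℤ) := by exact_mod_cast (by omega)
    linarith

/-- the difference of binomial coefficients -/
theorem EC_choose (k : ℕ) : EC k (fun n => ((n + k).choose k : ℤ)) 1 := by
  induction k with
  | zero =>
    refine Filter.Eventually.of_forall fun n => ?_
    simp
  | succ k ih =>
    rw [EC_dif]
    have : dif (fun n => ((n + (k + 1)).choose (k + 1) : ℤ)) =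
        fun n => ((n + 1 + k).choose k : ℤ) := by
      funext n
      simp only [dif]
      have h1 : (n + 1 + (k + 1)).choose (k + 1) =
          (n + 1 + k).choose k + (n + 1 + k).choose (k + 1) := by
        rw [← add_assoc (n + 1) k 1]
        exact Nat.choose_succ_succ _ _
      rw [h1, show n + (k + 1) = n + 1 + k by omega]
      push_cast
      ring
    rw [this]
    exact ih.shift 1

end Pool.Agent.Bloch.PEN
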