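import Pool.Agent.PEN.NvA

/-! PEN / NvB (size 3): the Hilbert function of a homogeneous ideal, one step.

`hI I n` is the space of forms of degree `n` in `I`, `hf I n = dim S_n - dim I_n` the Hilbert
function of `S / I`. The spaces `homogeneousSubmodule σ K n` are finite dimensional
(`homogeneousSubmodule_fg`).

`hf_step`: let `I` be homogeneous, `v` a form of degree `e`, `T = (I : v)` (`f * v ∈ I ↔ f ∈ T`,
`T` homogeneous follows but is also given), `J = I + (v)`. PROOF: the linear map
`S_n → J_{n+e} / I_{n+e}`, `f ↦ f v`, is surjective (an element of `J_{n+e}` is `a + f v` with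
`a ∈ I`; take the components of degree `n + e`: `a_{n+e} ∈ I`, and the component of `f v` is
`f_n v`, `hc_mul` in Grade2), with kernel `T_n`. So `dim J_{n+e} - dim I_{n+e} = dim S_n - dim T_n`
(`LinearMap.finrank_range_add_finrank_ker`, `Submodule.finrank_quotient_add_finrank`), i.e.
`hf I (n+e) - hf J (n+e) = hf T n`. -/

set_option linter.unusedSectionVars false

open MvPolynomial Filter

namespace Pool.Agent.Bloch.PEN

variable {K : Type} [Field K] {σ : Type} [Fintype σ]

/-- the forms of degree `n` in an ideal -/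
noncomputable def hI (I : Ideal (MvPolynomial σ K)) (n : ℕ) : Submodule K (MvPolynomial σ K) :=
  I.restrictScalars K ⊓ homogeneousSubmodule σ K n

/-- the Hilbert function of `S / I` -/
noncomputable def hf (I : Ideal (MvPolynomial σ K)) (n : ℕ) : ℤ :=
  (Module.finrank K (homogeneousSubmodule σ K n) : ℤ) - (Module.finrank K (hI I n) : ℤ)

instance finite_hs (n : ℕ) : Module.Finite K (homogeneousSubmodule σ K n) := by
  exact Module.Finite.iff_fg.2 (homogeneousSubmodule_fg σ K n)

instance finite_hI (I : Ideal (MvPolynomial σ K)) (n : ℕ) : Module.Finite K (hI I n) := by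
  exact Submodule.finiteDimensional_of_le (inf_le_right : hI I n ≤ homogeneousSubmodule σ K n)

theorem hf_top (n : ℕ) : hf (⊤ : Ideal (MvPolynomial σ K)) n = 0 := by
  have h : hI (⊤ : Ideal (MvPolynomial σ K)) n = homogeneousSubmodule σ K n := by
    unfold hI
    rw [inf_eq_right]
    intro x _
    exact Submodule.mem_top
  unfold hf
  rw [h, sub_self]

theorem hf_nonneg (I : Ideal (MvPolynomial σ K)) (n : ℕ) : 0 ≤ hf I n := by
  have h : Module.finrank K (hI I n) ≤ Module.finrank K (homogeneousSubmodule σ K n) :=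
    Submodule.finrank_mono (inf_le_right : hI I n ≤ homogeneousSubmodule σ K n)
  unfold hf
  omega

/-- an ideal containing all the variables -/
theorem hf_vars {I : Ideal (MvPolynomial σ K)} (h : ∀ s, X s ∈ I) {n : ℕ} (hn : 0 < n) :
    hf I n = 0 := by
  have h1 : hI I n = homogeneousSubmodule σ K n := by
    unfold hI
    rw [inf_eq_right]
    intro x hx
    have hx' : x.IsHomogeneous n := hx
    have h2 : Ideal.span (X '' (Set.univ : Set σ)) ≤ I := by
      rw [Ideal.span_le]
      rintro _ ⟨s, _, rfl⟩
      exact h s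
    refine h2 (MvPolynomial.mem_ideal_span_X_image.2 fun m hm => ?_)
    by_contra hcon
    push Not at hcon
    have hm0 : m = 0 := by
      ext i
      exact hcon i (Set.mem_univ i)
    have h3 := hx' (mem_support_iff.1 hm)
    rw [hm0, map_zero] at h3
    omega
  unfold hf
  rw [h1, sub_self]

theorem hf_step {I T : Ideal (MvPolynomial σ K)} (hI' : Sep.HomI I) {v : MvPolynomial σ K} {e : ℕ}
    (hv : v.IsHomogeneous e) (hT : ∀ f, f * v ∈ I ↔ f ∈ T) (n : ℕ) :
    hf I (n + e) = hf (I ⊔ Ideal.span {v}) (n + e) + hf T n := by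
  classical
  by_cases hv0 : v = 0
  · subst hv0
    have hT' : T = ⊤ := by
      rw [eq_top_iff]
      intro f _
      exact (hT f).1 (by rw [mul_zero]; exact I.zero_mem)
    have hJ : I ⊔ Ideal.span {(0 : MvPolynomial σ K)} = I := by
      rw [Ideal.span_singleton_eq_bot.2 rfl, sup_bot_eq]
    rw [hT', hf_top, hJ, add_zero]
  · set μ : MvPolynomial σ K →ₗ[K] MvPolynomial σ K := LinearMap.mulRight K v with hμ
    have hμa : ∀ f, μ f = f * v := fun f => rfl
    have hinj : Function.Injective μ := by
      intro f g hfg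
      rw [hμa, hμa] at hfg
      exact mul_right_cancel₀ hv0 hfg
    set A := hI I (n + e) with hA
    set B := (homogeneousSubmodule σ K n).map μ with hB
    have hdB : Module.finrank K B = Module.finrank K (homogeneousSubmodule σ K n) :=
      ((Submodule.equivMapOfInjective μ hinj (homogeneousSubmodule σ K n)).finrank_eq).symm
    have hinf : A ⊓ B = (hI T n).map μ := by
      ext x
      constructor
      · rintro ⟨⟨hx1, -⟩, f, hf1, hf2⟩
        refine ⟨f, ⟨(hT f).1 ?_, hf1⟩, hf2⟩
        rw [← hμa, hf2]
        exact hx1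
      · rintro ⟨f, ⟨hf1, hf2⟩, rfl⟩
        have hf2' : f.IsHomogeneous n := hf2
        exact ⟨⟨(hT f).2 hf1, hf2'.mul hv⟩, f, hf2, rfl⟩
    have hsup : A ⊔ B = hI (I ⊔ Ideal.span {v}) (n + e) := by
      apply le_antisymm
      · apply sup_le
        · rintro x ⟨hx1, hx2⟩
          exact ⟨(le_sup_left : I ≤ I ⊔ Ideal.span {v}) hx1, hx2⟩
        · rintro _ ⟨f, hf, rfl⟩
          have hf' : f.IsHomogeneous n := hf
          exact ⟨(le_sup_right : Ideal.span {v} ≤ I ⊔ Ideal.span {v})
            (Ideal.mem_span_singleton'.2 ⟨f, rfl⟩), hf'.mul hv⟩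
      · rintro x ⟨hx1, hx2⟩
        have hx2' : x.IsHomogeneous (n + e) := hx2
        obtain ⟨a, ha, b, hb, hab⟩ := Submodule.mem_sup.1 hx1
        obtain ⟨f, rfl⟩ := Ideal.mem_span_singleton'.1 hb
        have h1 : x = homogeneousComponent (n + e) a + homogeneousComponent n f * v := by
          rw [← hc_mul f v hv n, ← map_add, hab, homogeneousComponent_eq_self hx2']
        rw [h1]
        exact Submodule.add_mem_sup ⟨hI' a ha (n + e), homogeneousComponent_isHomogeneous _ _⟩
          ⟨homogeneousComponent n f, homogeneousComponent_isHomogeneous _ _, rfl⟩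
    have hdT : Module.finrank K ((hI T n).map μ) = Module.finrank K (hI T n) :=
      ((Submodule.equivMapOfInjective μ hinj (hI T n)).finrank_eq).symm
    have hdim := Submodule.finrank_sup_add_finrank_inf_eq A B
    rw [hinf, hsup, hdB, hdT] at hdim
    unfold hf
    rw [← hA]
    omega

end Pool.Agent.Bloch.PEN
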