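import Pool.Agent.H11.Sep.RH
import Pool.Agent.Bloch.Grade2
import Mathlib.RingTheory.GradedAlgebra.Homogeneous.Ideal
import Mathlib.RingTheory.GradedAlgebra.Radical

/-! PEN / NvC (size 3): induction over homogeneous ideals (prime filtrations).

`hom_ind`: Noetherian induction (`S` is Noetherian, `>` on ideals is well founded:
`wellFounded_gt` / `IsNoetherian.induction`): suppose the claim holds for all homogeneous ideals
`> I`. If `I = ⊤` use `h0`. Otherwise consider the homogeneous `v ∉ I` (there are some: `v = 1`) and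
the ideals `(I : v) = {f | f * v ∈ I}`; let `T = (I : v)` be maximal among them (Noetherian:
`set_has_maximal_iff_noetherian`). `T ≠ ⊤` as `v ∉ I`. `T` is homogeneous: if `f v ∈ I` then
`f_n v = (f v)_{n+e} ∈ I` (`hc_mul` in Grade2). `T` is prime: it is enough to test homogeneous
`a, b` (`prime_of_homog` below): if `a b v ∈ I`, `b v ∉ I`, then `b v` is homogeneous, not in `I`, and
`(I : v) ≤ (I : b v)`, so they are equal by maximality and `a ∈ (I : b v) = (I : v)`.
Then `I < I + (v)`, the claim holds for `I + (v)`, and `h1` gives it for `I`.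

`prime_of_homog`: a proper homogeneous ideal such that `a b ∈ T` implies `a ∈ T` or `b ∈ T` for
homogeneous `a`, `b` is prime. Either from `Ideal.IsHomogeneous.isPrime_of_homogeneous_mem_or_mem`
(grading `MvPolynomial.homogeneousSubmodule σ K`; translate `HomI` to
`Ideal.IsHomogeneous`), or directly: let `a, b ∉ T`; let `m` (`n`) be the largest degrees with
`a_m ∉ T` (`b_n ∉ T`); then `(a b)_{m+n} ≡ a_m b_n` modulo `T` is not in `T`. -/

set_option linter.unusedSectionVars false

open MvPolynomial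

namespace Pool.Agent.Bloch.PEN

variable {K : Type} [Field K] {σ : Type} [Fintype σ]

theorem prime_of_homog {T : Ideal (MvPolynomial σ K)} (hT : Sep.HomI T) (h1 : T ≠ ⊤)
    (h : ∀ (a b : MvPolynomial σ K) (m n : ℕ), a.IsHomogeneous m → b.IsHomogeneous n →
      a * b ∈ T → a ∈ T ∨ b ∈ T) : T.IsPrime := by
  let _ := MvPolynomial.gradedAlgebra (σ := σ) (R := K)
  have hT' : T.IsHomogeneous (homogeneousSubmodule σ K) := by
    intro i f hf
    have := hT f hf i
    rw [← decomposition.decompose'_apply] at this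
    exact this
  refine hT'.isPrime_of_homogeneous_mem_or_mem h1 ?_
  rintro x y ⟨m, hx⟩ ⟨n, hy⟩ hxy
  exact h x y m n ((mem_homogeneousSubmodule m x).1 hx) ((mem_homogeneousSubmodule n y).1 hy) hxy

private def NvC_quo (I : Ideal (MvPolynomial σ K)) (v : MvPolynomial σ K) :
    Ideal (MvPolynomial σ K) where
  carrier := {f | f * v ∈ I}
  add_mem' := by
    intro a b ha hb
    simp only [Set.mem_ofPred_eq] at *
    rw [add_mul]
    exact I.add_mem ha hb
  zero_mem' := by simp
  smul_mem' := by
    intro c x hx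
    simp only [Set.mem_ofPred_eq, smul_eq_mul] at *
    rw [mul_assoc]
    exact I.mul_mem_left c hx

private theorem NvC_mem_quo {I : Ideal (MvPolynomial σ K)} {v f : MvPolynomial σ K} :
    f ∈ NvC_quo I v ↔ f * v ∈ I := Iff.rfl

private theorem NvC_step (I : Ideal (MvPolynomial σ K)) (hI : Sep.HomI I) (hne : I ≠ ⊤) :
    ∃ (T : PrimeSpectrum (MvPolynomial σ K)) (v : MvPolynomial σ K) (e : ℕ), HomP T ∧
      v.IsHomogeneous e ∧ v ∉ I ∧ (∀ f, f * v ∈ I ↔ f ∈ T.asIdeal) := by
  set A : Set (Ideal (MvPolynomial σ K)) :=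
    {J | ∃ (v : MvPolynomial σ K) (e : ℕ), v.IsHomogeneous e ∧ v ∉ I ∧ J = NvC_quo I v} with hA
  have hAne : A.Nonempty := by
    refine ⟨NvC_quo I 1, 1, 0, isHomogeneous_one σ K, ?_, rfl⟩
    exact fun h => hne ((Ideal.eq_top_iff_one I).2 h)
  obtain ⟨T, ⟨v, e, hv, hvI, rfl⟩, hmax⟩ :=
    set_has_maximal_iff_noetherian.2 (inferInstance : IsNoetherian (MvPolynomial σ K)
      (MvPolynomial σ K)) A hAne
  have hTh : Sep.HomI (NvC_quo I v) := by
    intro f hf n
    rw [NvC_mem_quo] at hf ⊢
    rw [← hc_mul f v hv n]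
    exact hI _ hf _
  have hTt : NvC_quo I v ≠ ⊤ := by
    intro h
    rw [Ideal.eq_top_iff_one, NvC_mem_quo, one_mul] at h
    exact hvI h
  have hTp : (NvC_quo I v).IsPrime := by
    refine prime_of_homog hTh hTt ?_
    intro a b m n ha hb hab
    rw [NvC_mem_quo] at hab
    by_cases hbv : b * v ∈ I
    · exact Or.inr hbv
    · left
      have hmem : NvC_quo I (b * v) ∈ A := ⟨b * v, n + e, hb.mul hv, hbv, rfl⟩
      have hle : NvC_quo I v ≤ NvC_quo I (b * v) := by
        intro f hf
        rw [NvC_mem_quo] at hf ⊢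
        have : f * (b * v) = b * (f * v) := by ring
        rw [this]
        exact I.mul_mem_left b hf
      have heq : NvC_quo I v = NvC_quo I (b * v) := by
        by_contra hne'
        exact hmax _ hmem (lt_of_le_of_ne hle hne')
      rw [heq, NvC_mem_quo, ← mul_assoc]
      exact hab
  exact ⟨⟨NvC_quo I v, hTp⟩, v, e, hTh, hv, hvI, fun f => Iff.rfl⟩

theorem hom_ind (P : Ideal (MvPolynomial σ K) → Prop) (h0 : P ⊤)
    (h1 : ∀ (I : Ideal (MvPolynomial σ K)) (T : PrimeSpectrum (MvPolynomial σ K))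
      (v : MvPolynomial σ K) (e : ℕ), Sep.HomI I → HomP T → v.IsHomogeneous e →
      (∀ f, f * v ∈ I ↔ f ∈ T.asIdeal) → P (I ⊔ Ideal.span {v}) → P I)
    (I : Ideal (MvPolynomial σ K)) (hI : Sep.HomI I) : P I := by
  revert hI
  refine (wellFounded_gt (α := Ideal (MvPolynomial σ K))).induction
    (C := fun I => Sep.HomI I → P I) I ?_
  intro J ih hJ
  by_cases hne : J = ⊤
  · rw [hne]; exact h0
  · obtain ⟨T, v, e, hT, hv, hvJ, hq⟩ := NvC_step J hJ hne
    refine h1 J T v e hJ hT hv hq (ih _ ?_ (Sep.homI_sup hJ (Sep.homI_span hv)))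
    have hlt : J < J ⊔ Ideal.span {v} := by
      refine lt_of_le_of_ne le_sup_left ?_
      intro h
      apply hvJ
      rw [h]
      exact (le_sup_right : Ideal.span {v} ≤ J ⊔ Ideal.span {v}) (Ideal.mem_span_singleton_self v)
    exact hlt

end Pool.Agent.Bloch.PEN
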