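import Pool.Agent.PEN.NvB
import Pool.Agent.PEN.NvC

/-! PEN / NvD (size 3): the Hilbert function is eventually polynomial.

`hf_zero_dim`: `T` a homogeneous prime with `dl K T = 0`. All variables are in `T`: suppose `X s ∉ T`.
The homomorphism `Polynomial K → S / T`, `X ↦ X s`, is injective: if `∑ c_n X_s ^ n ∈ T` then every
`c_n X_s ^ n ∈ T` (homogeneous), so `c_n = 0` (`X_s ^ n ∉ T`, `c_n` constant). So
`1 ≤ td K (S / T) = dl K T` (`td_le_of_injective`, `td_polynomial`, `td_self`), a contradiction.
Then `hf_vars`.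

`hf_EC`: induction on `k` (for all `I`). Inside, `hom_ind` applied to
`P I := (all homogeneous primes over I have dl ≤ k) → EC k (hf I) 0`. `P ⊤`: `hf_top`, `EC_zero`.
Step `I, T, v, e`: `I ≤ T` and `I ≤ I + (v)`, so the hypothesis passes to `I + (v)` and `dl K T ≤ k`.
`hf_step` and `EC.add`, `EC.shift`, `EC.of_shift` reduce to `EC k (hf T) 0`. If `dl K T = 0`:
`hf_zero_dim` (eventually zero, `EC.congr`, `EC_zero`). Otherwise `k = k' + 1` and some `X s ∉ T`
(`dl_vars` in Gal4: otherwise `dl K T = 0`); `hf_step` for `T`, `v = X s` (`(T : X s) = T`) gives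
`dif (hf T) n = hf (T + (X s)) (n + 1)`; every homogeneous prime over `T + (X s)` is `> T`, so of
`dl < dl T ≤ k' + 1` (`dl_lt`), so `EC k' (hf (T + (X s))) 0` by induction, and `EC_dif`. -/

set_option linter.unusedSectionVars false

open MvPolynomial Filter

namespace Pool.Agent.Bloch.PEN

variable {K : Type} [Field K] {σ : Type} [Fintype σ]

theorem vars_of_dl_zero {T : PrimeSpectrum (MvPolynomial σ K)} (hT : HomP T) (hd : dl K T = 0)
    (s : σ) : X s ∈ T.asIdeal := by
  by_contra hs
  let φ : Polynomial K →ₐ[K] (MvPolynomial σ K ⧸ T.asIdeal) :=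
    Polynomial.aeval (Ideal.Quotient.mkₐ K T.asIdeal (X s))
  have hφ : Function.Injective φ := by
    rw [injective_iff_map_eq_zero]
    intro p hp
    have h1 : φ p = Ideal.Quotient.mkₐ K T.asIdeal
        (Polynomial.aeval (X s : MvPolynomial σ K) p) :=
      Polynomial.aeval_algHom_apply _ _ _
    rw [h1] at hp
    have h2 : Polynomial.aeval (X s : MvPolynomial σ K) p ∈ T.asIdeal :=
      Ideal.Quotient.eq_zero_iff_mem.1 hp
    ext n
    rw [Polynomial.coeff_zero]
    by_contra hn
    have h3 := hT _ h2 n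
    have h4 : homogeneousComponent n (Polynomial.aeval (X s : MvPolynomial σ K) p) =
        C (p.coeff n) * X s ^ n := by
      rw [Polynomial.aeval_eq_sum_range' (n := p.natDegree + n + 1) (by omega), map_sum]
      have h5 : ∀ i, homogeneousComponent n (p.coeff i • (X s : MvPolynomial σ K) ^ i) =
          if i = n then C (p.coeff i) * X s ^ i else 0 := by
        intro i
        have h6 : (p.coeff i • (X s : MvPolynomial σ K) ^ i) ∈ homogeneousSubmodule σ K i := by
          rw [mem_homogeneousSubmodule, MvPolynomial.smul_eq_C_mul]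
          have := (isHomogeneous_C σ (p.coeff i)).mul (isHomogeneous_X_pow (R := K) s i)
          rwa [zero_add] at this
        rw [homogeneousComponent_of_mem h6, MvPolynomial.smul_eq_C_mul]
        by_cases h : i = n
        · rw [if_pos h, if_pos h.symm]
        · rw [if_neg h, if_neg (fun h' => h h'.symm)]
      rw [Finset.sum_congr rfl (fun i _ => h5 i), Finset.sum_ite_eq' _ n, if_pos]
      rw [Finset.mem_range]; omega
    rw [h4] at h3
    rcases T.isPrime.mem_or_mem h3 with h | h
    · exact T.isPrime.ne_top (Ideal.eq_top_of_isUnit_mem _ h ((isUnit_iff_ne_zero.2 hn).map C))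
    · exact hs (T.isPrime.mem_of_pow_mem n h)
  have h5 := td_le_of_injective K φ hφ
  have h6 := td_polynomial K K
  have h7 := td_self K
  have h8 : dl K T = td K (MvPolynomial σ K ⧸ T.asIdeal) := rfl
  omega

theorem hf_zero_dim {T : PrimeSpectrum (MvPolynomial σ K)} (hT : HomP T) (hd : dl K T = 0) {n : ℕ}
    (hn : 0 < n) : hf T.asIdeal n = 0 :=
  hf_vars (fun s => vars_of_dl_zero hT hd s) hn

/-- the step with a variable -/
theorem hf_var {T : PrimeSpectrum (MvPolynomial σ K)} (hT : HomP T) {s : σ}
    (hs : X s ∉ T.asIdeal) (n : ℕ) :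
    dif (hf T.asIdeal) n = hf (T.asIdeal ⊔ Ideal.span {X s}) (n + 1) := by
  have h := hf_step (I := T.asIdeal) (T := T.asIdeal) (v := X s) (e := 1) hT
    (isHomogeneous_X K s) (fun f => ⟨fun hf => (T.isPrime.mem_or_mem hf).resolve_right hs,
      fun hf => Ideal.mul_mem_right _ _ hf⟩) n
  unfold dif
  omega

private theorem NvD_step (k : ℕ)
    (HT : ∀ T : PrimeSpectrum (MvPolynomial σ K), HomP T → dl K T ≤ k → EC k (hf T.asIdeal) 0)
    (I : Ideal (MvPolynomial σ K)) (hI : Sep.HomI I)
    (h : ∀ p : PrimeSpectrum (MvPolynomial σ K), HomP p → I ≤ p.asIdeal → dl K p ≤ k) :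
    EC k (hf I) 0 := by
  revert h
  refine hom_ind (fun I => (∀ p : PrimeSpectrum (MvPolynomial σ K), HomP p →
    I ≤ p.asIdeal → dl K p ≤ k) → EC k (hf I) 0) ?_ ?_ I hI
  · intro _
    have : hf (⊤ : Ideal (MvPolynomial σ K)) = fun _ => 0 := by
      funext n; exact hf_top n
    rw [this]
    exact EC_zero k
  · intro I T v e hI hT hv hfT ih hP
    have hIT : I ≤ T.asIdeal := fun f hf => (hfT f).1 (Ideal.mul_mem_right _ _ hf)
    have h1 : EC k (hf (I ⊔ Ideal.span {v})) 0 :=
      ih (fun p hp hle => hP p hp (le_sup_left.trans hle))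
    have h2 : EC k (hf T.asIdeal) 0 := HT T hT (hP T hT hIT)
    have h3 := (h1.shift e).add h2
    refine EC.of_shift e ?_
    rw [add_zero] at h3
    refine h3.congr (Eventually.of_forall fun n => ?_)
    exact (hf_step hI hv hfT n).symm

theorem hf_EC (k : ℕ) (I : Ideal (MvPolynomial σ K)) (hI : Sep.HomI I)
    (h : ∀ p : PrimeSpectrum (MvPolynomial σ K), HomP p → I ≤ p.asIdeal → dl K p ≤ k) :
    EC k (hf I) 0 := by
  have hz : ∀ (k : ℕ) (T : PrimeSpectrum (MvPolynomial σ K)), HomP T → dl K T = 0 →
      EC k (hf T.asIdeal) 0 := by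
    intro k T hT h0
    refine (EC_zero k).congr ?_
    filter_upwards [eventually_gt_atTop 0] with n hn
    exact (hf_zero_dim hT h0 hn).symm
  induction k generalizing I with
  | zero =>
    exact NvD_step 0 (fun T hT hd => hz 0 T hT (by omega)) I hI h
  | succ k ih =>
    refine NvD_step (k + 1) (fun T hT hd => ?_) I hI h
    by_cases h0 : dl K T = 0
    · exact hz _ T hT h0
    · obtain ⟨s, hs⟩ : ∃ s, X s ∉ T.asIdeal := by
        by_contra hcon
        push Not at hcon
        exact h0 (dl_vars K T hcon)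
      rw [EC_dif]
      have h1 : Sep.HomI (T.asIdeal ⊔ Ideal.span {X s}) :=
        Sep.homI_sup (I := T.asIdeal) hT (Sep.homI_span (isHomogeneous_X K s))
      have h2 := ih (T.asIdeal ⊔ Ideal.span {X s}) h1 (by
        intro p hp hle
        have hTp : T ≤ p := fun f hf => hle (Ideal.mem_sup_left hf)
        have hne : T ≠ p := by
          rintro rfl
          exact hs (hle (Ideal.mem_sup_right (Ideal.mem_span_singleton_self _)))
        have := dl_lt K (lt_of_le_of_ne hTp hne)
        omega)
      refine (h2.shift 1).congr (Eventually.of_forall fun n => ?_)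
      exact (hf_var hT hs n).symm

end Pool.Agent.Bloch.PEN
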