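import Pool.Agent.PEN.NvD

/-! PEN / NvE (size 4): the degree of a projective variety is positive.

`dg k I`: the eventual value of the `k`-th difference of the Hilbert function (for dimension of the
cone `k + 1`).

`exists_indep`: the transcendence degree of `S / T` over `K` is `dl K T = k + 1`, and `S / T` is
generated by the images of the variables, so some `k + 1` of the variables are algebraically
independent in `S / T` (`exists_isTranscendenceBasis_subset`-type lemma for the generating set
`Set.range`; `IsTranscendenceBasis`, `Algebra.trdeg`; the cardinality of the basis is the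
transcendence degree): there is `b : Fin (k + 1) → σ` such that no nonzero polynomial in the
variables `X (b j)` is in `T` (and `b` is injective).

`hf_lower`: so the monomials of degree `n` in the variables `X (b j)` are linearly independent
modulo `T`: `K[b]_n ∩ T_n = 0`, both subspaces of `S_n`, hence
`dim T_n + dim K[b]_n ≤ dim S_n` (`Submodule.finrank_sup_add_finrank_inf_eq`), and
`dim K[b]_n` = number of monomials of degree `n` in `k + 1` variables = `(n + k).choose k`
(`rename b` is injective and maps `homogeneousSubmodule (Fin (k+1)) K n` into `S_n`; its dimension: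
basis of monomials, `Sym.card_sym_eq_choose` or `Finset.card_finsuppAntidiag`-type count; a lower
bound is enough).

`dg_pos`: `EC k (hf T) c` for some `c` by `hf_EC` and `exists_EC`. If `c ≤ 0` then with `EC_choose k`
`EC k (hf T - choose) (c - 1)` and `c - 1 < 0`, so `hf T n < (n + k).choose k` for large `n` by
`EC.neg`, contradicting `hf_lower`. -/

set_option linter.unusedSectionVars false

open MvPolynomial Filter

namespace Pool.Agent.Bloch.PEN

variable {K : Type} [Field K] {σ : Type} [Fintype σ]

open Classical in
/-- the degree of `S / I`, the cone being of dimension `k + 1` -/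
noncomputable def dg (k : ℕ) (I : Ideal (MvPolynomial σ K)) : ℤ :=
  if h : ∃ c, EC k (hf I) c then h.choose else 0

theorem dg_eq {k : ℕ} {I : Ideal (MvPolynomial σ K)} {c : ℤ} (h : EC k (hf I) c) :
    dg k I = c := by
  unfold dg
  have h' : ∃ c, EC k (hf I) c := ⟨c, h⟩
  rw [dif_pos h']
  exact EC.unique h'.choose_spec h

theorem dg_spec {k : ℕ} {I : Ideal (MvPolynomial σ K)} (hI : Sep.HomI I)
    (h : ∀ p : PrimeSpectrum (MvPolynomial σ K), HomP p → I ≤ p.asIdeal → dl K p ≤ k + 1) :
    EC k (hf I) (dg k I) := by
  obtain ⟨c, hc⟩ := exists_EC (hf_EC (k + 1) I hI h)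
  rw [dg_eq hc]
  exact hc

theorem exists_indep {k : ℕ} {T : PrimeSpectrum (MvPolynomial σ K)} (hd : dl K T = k + 1) :
    ∃ b : Fin (k + 1) → σ, Function.Injective b ∧
      ∀ f : MvPolynomial (Fin (k + 1)) K, rename b f ∈ T.asIdeal → f = 0 := by
  have hA : IsDomain (MvPolynomial σ K ⧸ T.asIdeal) :=
    (Ideal.Quotient.isDomain_iff_prime T.asIdeal).2 T.isPrime
  let x : σ → MvPolynomial σ K ⧸ T.asIdeal := fun s => Ideal.Quotient.mkₐ K T.asIdeal (X s)
  have hx : ∀ f : MvPolynomial σ K, aeval x f = Ideal.Quotient.mkₐ K T.asIdeal f := by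
    intro f
    have : aeval x = Ideal.Quotient.mkₐ K T.asIdeal := by
      apply MvPolynomial.algHom_ext
      intro s
      simp [x]
    rw [this]
  have hadj : Algebra.adjoin K (Set.range x) = ⊤ := by
    rw [Algebra.adjoin_range_eq_range_aeval, eq_top_iff]
    intro a _
    obtain ⟨f, rfl⟩ := Ideal.Quotient.mkₐ_surjective K T.asIdeal a
    exact ⟨f, hx f⟩
  have : Algebra.IsAlgebraic (Algebra.adjoin K (Set.range x)) (MvPolynomial σ K ⧸ T.asIdeal) := by
    constructor
    intro a
    have ha : a ∈ Algebra.adjoin K (Set.range x) := by rw [hadj]; trivial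
    exact isAlgebraic_algebraMap (⟨a, ha⟩ : Algebra.adjoin K (Set.range x))
  obtain ⟨t, hts, ht⟩ := exists_isTranscendenceBasis_subset (R := K) (Set.range x)
  have hcard : Cardinal.mk t = Algebra.trdeg K (MvPolynomial σ K ⧸ T.asIdeal) :=
    ht.cardinalMk_eq_trdeg
  have hcard2 : Cardinal.mk t = ((k + 1 : ℕ) : Cardinal) := by
    rw [hcard, ← coe_td, ← hd]
    rfl
  have hcard3 : Cardinal.mk t = Cardinal.mk (Fin (k + 1)) := by
    rw [hcard2, Cardinal.mk_fin]
  obtain ⟨e⟩ := Cardinal.eq.1 hcard3
  choose g hg using fun y : t => hts y.2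
  refine ⟨fun j => g (e.symm j), ?_, ?_⟩
  · intro i j hij
    have h1 : (e.symm i : MvPolynomial σ K ⧸ T.asIdeal) = e.symm j := by
      rw [← hg (e.symm i), ← hg (e.symm j)]
      exact congrArg x hij
    exact e.symm.injective (Subtype.ext h1)
  · intro f hf'
    have hind : AlgebraicIndependent K (fun j : Fin (k + 1) =>
        ((e.symm j : t) : MvPolynomial σ K ⧸ T.asIdeal)) :=
      ht.1.comp e.symm e.symm.injective
    apply hind
    rw [map_zero]
    have h2 : (fun j : Fin (k + 1) => ((e.symm j : t) : MvPolynomial σ K ⧸ T.asIdeal)) =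
        x ∘ fun j => g (e.symm j) := by
      funext j
      exact (hg (e.symm j)).symm
    rw [h2, ← aeval_rename, hx]
    exact Ideal.Quotient.eq_zero_iff_mem.2 hf'

theorem NvE_count (k n : ℕ) :
    (n + k).choose k ≤ Module.finrank K (homogeneousSubmodule (Fin (k + 1)) K n) := by
  let v : Sym (Fin (k + 1)) n → homogeneousSubmodule (Fin (k + 1)) K n := fun s =>
    ⟨monomial (Multiset.toFinsupp (s : Multiset (Fin (k + 1)))) (1 : K), by
      apply isHomogeneous_monomial
      rw [Finsupp.degree_eq_sum]
      have h1 : ∀ i, Multiset.toFinsupp (s : Multiset (Fin (k + 1))) i =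
          Multiset.count i (s : Multiset (Fin (k + 1))) := fun i => Multiset.toFinsupp_apply _ _
      simp only [h1]
      rw [Multiset.sum_count_eq_card (by intro a _; exact Finset.mem_univ a)]
      exact s.2⟩
  have hv : LinearIndependent K v := by
    have h2 : LinearIndependent K (fun s : Sym (Fin (k + 1)) n =>
        (monomial (Multiset.toFinsupp (s : Multiset (Fin (k + 1)))) (1 : K) :
          MvPolynomial (Fin (k + 1)) K)) := by
      have h3 := (basisMonomials (Fin (k + 1)) K).linearIndependent
      have h4 := h3.comp (fun s : Sym (Fin (k + 1)) n =>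
        Multiset.toFinsupp (s : Multiset (Fin (k + 1)))) (by
          intro s s' hs
          exact Subtype.ext (Multiset.toFinsupp.injective hs))
      simpa [Function.comp_def] using h4
    exact LinearIndependent.of_comp (homogeneousSubmodule (Fin (k + 1)) K n).subtype h2
  have : Module.Finite K (homogeneousSubmodule (Fin (k + 1)) K n) := finite_hs n
  have h5 := hv.fintype_card_le_finrank
  rw [Sym.card_sym_eq_choose, Fintype.card_fin] at h5
  refine le_trans (le_of_eq ?_) h5
  rw [show k + 1 + n - 1 = n + k by omega]
  exact (Nat.choose_symm_add).symm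

theorem hf_lower {k : ℕ} {T : PrimeSpectrum (MvPolynomial σ K)} (hd : dl K T = k + 1) (n : ℕ) :
    ((n + k).choose k : ℤ) ≤ hf T.asIdeal n := by
  obtain ⟨b, hb, hind⟩ := exists_indep hd
  let W : Submodule K (MvPolynomial σ K) :=
    (homogeneousSubmodule (Fin (k + 1)) K n).map (rename b : _ →ₐ[K] _).toLinearMap
  have : Module.Finite K (homogeneousSubmodule (Fin (k + 1)) K n) := finite_hs n
  have : Module.Finite K (homogeneousSubmodule σ K n) := finite_hs n
  have hWle : W ≤ homogeneousSubmodule σ K n := by
    rintro _ ⟨f, hf', rfl⟩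
    exact IsHomogeneous.rename_isHomogeneous hf'
  have hdis : W ⊓ hI T.asIdeal n = ⊥ := by
    rw [eq_bot_iff]
    rintro y ⟨⟨f, hf', rfl⟩, hy, _⟩
    have : f = 0 := hind f hy
    rw [this]
    simp
  have hWfin : Module.finrank K W = Module.finrank K (homogeneousSubmodule (Fin (k + 1)) K n) := by
    have hinj : Function.Injective (rename b : MvPolynomial (Fin (k + 1)) K →ₐ[K]
        MvPolynomial σ K).toLinearMap := rename_injective b hb
    exact (LinearEquiv.finrank_eq (Submodule.equivMapOfInjective _ hinj _)).symm
  have : Module.Finite K W := by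
    unfold W
    infer_instance
  have : Module.Finite K (hI T.asIdeal n) := finite_hI _ n
  have h1 := Submodule.finrank_sup_add_finrank_inf_eq W (hI T.asIdeal n)
  rw [hdis, finrank_bot, add_zero] at h1
  have h2 : Module.finrank K (W ⊔ hI T.asIdeal n : Submodule K (MvPolynomial σ K)) ≤
      Module.finrank K (homogeneousSubmodule σ K n) := by
    apply Submodule.finrank_mono
    exact sup_le hWle inf_le_right
  have h3 := NvE_count (K := K) k n
  unfold hf
  rw [hWfin] at h1
  omega

theorem dg_pos {k : ℕ} {T : PrimeSpectrum (MvPolynomial σ K)} (hT : HomP T)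
    (hd : dl K T = k + 1) : 0 < dg k T.asIdeal := by
  have hle : ∀ p : PrimeSpectrum (MvPolynomial σ K), HomP p → T.asIdeal ≤ p.asIdeal →
      dl K p ≤ k + 1 := by
    intro p _ hp
    rcases eq_or_lt_of_le (show T ≤ p from hp) with h | h
    · rw [← h, hd]
    · have := dl_lt K h
      omega
  have h := dg_spec (k := k) (I := T.asIdeal) hT hle
  by_contra hneg
  have h1 := h.sub (EC_choose k)
  have h2 := h1.neg (by omega)
  obtain ⟨n, hn⟩ := h2.exists
  have h3 := hf_lower hd n
  omega

end Pool.Agent.Bloch.PEN
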