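import Pool.Agent.PEN.NvE

/-! PEN / NvF (size 3): the degree is additive over the cycle, and the degree of a divisor.

`dg_cyc`: `hom_ind` applied to `P I := (all primes over I have dl ≤ k + 1) → the equation`. `P ⊤`: both
sides are zero (`S / ⊤` has empty support: `cyc_eq_zero`; `dg_eq` with `hf_top`). Step `I, T, v, e`:
`0 → S/T → S/I → S/(I+(v)) → 0` (first map `f ↦ f v`), `cyc_exact` gives
`cyc (k+1) (S/I) = cyc (k+1) (S/T) + cyc (k+1) (S/(I+(v)))`; `dg k I = dg k (I+(v)) + dg k T` from
`hf_step` and `EC.add` (`dg_spec`, `dg_eq`, shifts). If `dl K T = k + 1` then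
`cyc (k+1) (S/T) = single T 1` (`cyc_quot_self`). If `dl K T ≤ k` then `cyc (k+1) (S/T) = 0`
(`cyc_eq_zero`, all primes over `T` have `dl ≤ k`) and `dg k T = 0` by `hf_EC k` and `dg_eq`.

`dg_div`: `hf_step` for `I = W`, `v = f`, `T = W` (prime, `f ∉ W`):
`hf (W + (f)) (n + m) = hf W (n + m) - hf W n`, so by `EC.diff_shift` and `EC.of_shift`
`EC k (hf (W + (f))) (m * dg (k+1) W)`. With `dg_cyc` for `I = W + (f)` (all primes over it have
`dl ≤ k + 1`: `dl_lt`) and the definition of `divCyc`. -/

set_option linter.unusedSectionVars false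

open MvPolynomial Filter

namespace Pool.Agent.Bloch.PEN

variable {K : Type} [Field K] {σ : Type} [Fintype σ] (𝕜 : Type) [Field 𝕜] [CharZero 𝕜]

/-- the degree of a cycle -/
noncomputable def degc (k : ℕ) : (PrimeSpectrum (MvPolynomial σ K) →₀ 𝕜) →ₗ[𝕜] 𝕜 :=
  Finsupp.linearCombination 𝕜 (fun T => (dg k T.asIdeal : 𝕜))

theorem dg_cyc {k : ℕ} (I : Ideal (MvPolynomial σ K)) (hI : Sep.HomI I)
    (h : ∀ p : PrimeSpectrum (MvPolynomial σ K), I ≤ p.asIdeal → dl K p ≤ k + 1) :
    degc 𝕜 k (cyc K 𝕜 (R := MvPolynomial σ K) (k + 1) (MvPolynomial σ K ⧸ I)) = (dg k I : 𝕜) := by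
  revert h
  refine hom_ind (fun I => (∀ p : PrimeSpectrum (MvPolynomial σ K), I ≤ p.asIdeal →
    dl K p ≤ k + 1) →
    degc 𝕜 k (cyc K 𝕜 (R := MvPolynomial σ K) (k + 1) (MvPolynomial σ K ⧸ I)) = (dg k I : 𝕜))
    ?_ ?_ I hI
  · intro _
    rw [cyc_eq_zero K 𝕜 (by
      intro p hp
      rw [support_quot] at hp
      exact absurd (top_le_iff.1 hp) p.isPrime.ne_top), map_zero]
    have h1 : hf (⊤ : Ideal (MvPolynomial σ K)) = fun _ => 0 := by
      funext n; exact hf_top n
    have h2 : dg k (⊤ : Ideal (MvPolynomial σ K)) = 0 := by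
      apply dg_eq
      rw [h1]
      exact EC_zero k
    rw [h2, Int.cast_zero]
  · intro I T v e hI hT hv hfT ih hP
    have hIT : I ≤ T.asIdeal := fun f hf => (hfT f).1 (Ideal.mul_mem_right _ _ hf)
    have hJ : Sep.HomI (I ⊔ Ideal.span {v}) := Sep.homI_sup hI (Sep.homI_span hv)
    have hdT : dl K T ≤ k + 1 := hP T hIT
    have ih' := ih (fun p hle => hP p (le_sup_left.trans hle))
    -- the prime part
    have hT' : degc 𝕜 k (cyc K 𝕜 (R := MvPolynomial σ K) (k + 1)
        (MvPolynomial σ K ⧸ T.asIdeal)) = (dg k T.asIdeal : 𝕜) := by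
      by_cases hd : dl K T = k + 1
      · rw [cyc_quot_self K 𝕜 T hd]
        unfold degc
        rw [Finsupp.linearCombination_single, one_smul]
      · rw [cyc_eq_zero K 𝕜 (by
          intro p hp
          rw [support_quot] at hp
          have : dl K p ≤ dl K T := dl_le K hp
          omega), map_zero]
        have h2 : dg k T.asIdeal = 0 := by
          apply dg_eq
          apply hf_EC k T.asIdeal hT
          intro p _ hp
          have : dl K p ≤ dl K T := dl_le K hp
          omega
        rw [h2, Int.cast_zero]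
    -- the exact sequence
    let f : (MvPolynomial σ K ⧸ T.asIdeal) →ₗ[MvPolynomial σ K] (MvPolynomial σ K ⧸ I) :=
      Submodule.liftQ T.asIdeal (LinearMap.toSpanSingleton (MvPolynomial σ K)
        (MvPolynomial σ K ⧸ I) (Submodule.Quotient.mk v)) (by
          intro g hg
          rw [LinearMap.mem_ker, LinearMap.toSpanSingleton_apply, ← Submodule.Quotient.mk_smul,
            smul_eq_mul, Submodule.Quotient.mk_eq_zero]
          exact (hfT g).2 hg)
    have hf1 : ∀ g : MvPolynomial σ K, f (Submodule.Quotient.mk g) =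
        (Submodule.Quotient.mk (g * v) : MvPolynomial σ K ⧸ I) := by
      intro g
      rfl
    let g : (MvPolynomial σ K ⧸ I) →ₗ[MvPolynomial σ K]
        (MvPolynomial σ K ⧸ (I ⊔ Ideal.span {v})) :=
      Submodule.factor (le_sup_left : I ≤ I ⊔ Ideal.span {v})
    have hg1 : ∀ a : MvPolynomial σ K, g (Submodule.Quotient.mk a) =
        (Submodule.Quotient.mk a : MvPolynomial σ K ⧸ (I ⊔ Ideal.span {v})) := by
      intro a
      rfl
    have hf : Function.Injective f := by
      rw [injective_iff_map_eq_zero]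
      intro x hx
      obtain ⟨a, rfl⟩ := Submodule.Quotient.mk_surjective _ x
      rw [hf1, Submodule.Quotient.mk_eq_zero] at hx
      rw [Submodule.Quotient.mk_eq_zero]
      exact (hfT a).1 hx
    have hg : Function.Surjective g := by
      intro y
      obtain ⟨a, rfl⟩ := Submodule.Quotient.mk_surjective _ y
      exact ⟨Submodule.Quotient.mk a, hg1 a⟩
    have hfg : Function.Exact f g := by
      intro y
      obtain ⟨a, rfl⟩ := Submodule.Quotient.mk_surjective _ y
      rw [hg1, Submodule.Quotient.mk_eq_zero]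
      constructor
      · intro ha
        obtain ⟨b, hb, c, hc, hbc⟩ := Submodule.mem_sup.1 ha
        obtain ⟨d, rfl⟩ := Ideal.mem_span_singleton'.1 hc
        refine ⟨Submodule.Quotient.mk d, ?_⟩
        rw [hf1, ← hbc, Submodule.Quotient.eq]
        have : d * v - (b + d * v) = -b := by ring
        rw [this]
        exact I.neg_mem hb
      · rintro ⟨x, hx⟩
        obtain ⟨d, rfl⟩ := Submodule.Quotient.mk_surjective _ x
        rw [hf1, Submodule.Quotient.eq] at hx
        have h1 : d * v ∈ I ⊔ Ideal.span {v} :=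
          Ideal.mem_sup_right (Ideal.mul_mem_left _ _ (Ideal.mem_span_singleton_self v))
        have h2 : d * v - a ∈ I ⊔ Ideal.span {v} := Ideal.mem_sup_left hx
        have h3 := Submodule.sub_mem _ h1 h2
        have h4 : d * v - (d * v - a) = a := by ring
        rwa [h4] at h3
    have hBd : Bd K (R := MvPolynomial σ K) (k + 1) (MvPolynomial σ K ⧸ I) := by
      refine ⟨inferInstance, fun p hp => ?_⟩
      rw [support_quot] at hp
      exact hP p hp
    rw [cyc_exact K 𝕜 hBd f g hf hg hfg, map_add, hT', ih']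
    have h5 : dg k I = dg k (I ⊔ Ideal.span {v}) + dg k T.asIdeal := by
      apply dg_eq
      have h1 := dg_spec hJ (k := k) (fun p _ hle => hP p (le_sup_left.trans hle))
      have h2 := dg_spec (I := T.asIdeal) hT (k := k) (fun p _ hle => hP p (hIT.trans hle))
      refine EC.of_shift e ?_
      refine ((h1.shift e).add h2).congr (Eventually.of_forall fun n => ?_)
      exact (hf_step hI hv hfT n).symm
    rw [h5]
    push_cast
    ring

theorem dg_div {k m : ℕ} {W : PrimeSpectrum (MvPolynomial σ K)} (hW : HomP W)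
    (hd : dl K W = k + 2) {f : MvPolynomial σ K} (hf' : f.IsHomogeneous m) (hfW : f ∉ W.asIdeal) :
    degc 𝕜 k (divCyc K 𝕜 (k + 1) W f) = (m : 𝕜) * (dg (k + 1) W.asIdeal : 𝕜) := by
  have h1 : ∀ p : PrimeSpectrum (MvPolynomial σ K), W.asIdeal ⊔ Ideal.span {f} ≤ p.asIdeal →
      dl K p ≤ k + 1 := by
    intro p hp
    have hWp : W ≤ p := fun g hg => hp (Ideal.mem_sup_left hg)
    have hne : W ≠ p := by
      rintro rfl
      exact hfW (hp (Ideal.mem_sup_right (Ideal.mem_span_singleton_self _)))
    have := dl_lt K (lt_of_le_of_ne hWp hne)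
    omega
  have hJ : Sep.HomI (W.asIdeal ⊔ Ideal.span {f}) :=
    Sep.homI_sup (I := W.asIdeal) hW (Sep.homI_span hf')
  unfold divCyc
  rw [dg_cyc 𝕜 _ hJ h1]
  have h2 : dg k (W.asIdeal ⊔ Ideal.span {f}) = m * dg (k + 1) W.asIdeal := by
    apply dg_eq
    have h3 := dg_spec (I := W.asIdeal) hW (k := k + 1) (fun p _ hle => by
      have : dl K p ≤ dl K W := dl_le K hle
      omega)
    refine EC.of_shift m ?_
    refine (h3.diff_shift m).congr (Eventually.of_forall fun n => ?_)
    have h4 := hf_step (I := W.asIdeal) (T := W.asIdeal) (v := f) (e := m) hW hf'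
      (fun g => ⟨fun hg => (W.isPrime.mem_or_mem hg).resolve_right hfW,
        fun hg => Ideal.mul_mem_right _ _ hg⟩) n
    show hf W.asIdeal (n + m) - hf W.asIdeal n = hf (W.asIdeal ⊔ Ideal.span {f}) (n + m)
    omega
  rw [h2]
  push_cast
  ring

end Pool.Agent.Bloch.PEN
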