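import Pool.Agent.PEN.NvH

/-! The explicit degree map. -/

set_option linter.unusedSectionVars false

open MvPolynomial Filter

namespace Pool.Agent.Bloch.PEN

variable {K : Type} [Field K] {σ : Type} [Fintype σ] (𝕜 : Type) [Field 𝕜] [CharZero 𝕜]

/-- the degree of cycles on `Z` -/
noncomputable def degH (Z : Set (PrimeSpectrum (MvPolynomial σ K))) (k : ℕ) :
    (VH Z (k + 1) →₀ 𝕜) →ₗ[𝕜] 𝕜 := degc 𝕜 k ∘ₗ Sep.inc 𝕜 Z (k + 1)

theorem degH_single {Z : Set (PrimeSpectrum (MvPolynomial σ K))} {k : ℕ} (V : VH Z (k + 1)) :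
    degH 𝕜 Z k (Finsupp.single V 1) ≠ 0 := by
  have h := dg_pos V.2.1 V.2.2.2
  unfold degH degc
  rw [LinearMap.comp_apply, Sep.inc_single, Finsupp.linearCombination_single, one_smul]
  exact_mod_cast h.ne'

theorem degH_ker {Z : Set (PrimeSpectrum (MvPolynomial σ K))}
    (hup : ∀ p ∈ Z, ∀ q, p ≤ q → q ∈ Z) (k : ℕ) (Gm : Set (σ → K))
    (hG : ∀ c ∈ Gm, ∀ s, c s ≠ 0) : ∀ z ∈ NN 𝕜 Z (k + 1) Gm, degH 𝕜 Z k z = 0 := by
  have key : NN 𝕜 Z (k + 1) Gm ≤ LinearMap.ker (degH 𝕜 Z k) := by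
    refine sup_le ?_ ?_
    · intro z hz
      rw [LinearMap.mem_ker]
      unfold degH
      rw [LinearMap.comp_apply]
      have h1 := Sep.inc_relH 𝕜 hup hz
      refine Submodule.span_induction (p := fun z _ => degc 𝕜 k z = 0) ?_ ?_ ?_ ?_ h1
      · rintro z ⟨W, hW, hhW, hd, n, f, g, hf, hg, hfW, hgW, rfl⟩
        rw [map_sub, dg_div 𝕜 hhW hd hf hfW, dg_div 𝕜 hhW hd hg hgW, sub_self]
      · exact map_zero _
      · intro x y _ _ hx hy
        rw [map_add, hx, hy, add_zero]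
      · intro a x _ hx
        rw [map_smul, hx, smul_zero]
    · refine Submodule.span_le.2 ?_
      rintro z ⟨c, hc, V, V', hV, rfl⟩
      change degH 𝕜 Z k _ = 0
      unfold degH degc
      rw [LinearMap.comp_apply, map_sub, map_sub, Sep.inc_single, Sep.inc_single,
        Finsupp.linearCombination_single, Finsupp.linearCombination_single, hV,
        dg_scl c (hG c hc), sub_self]
  exact fun z hz => key hz

end Pool.Agent.Bloch.PEN
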