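import Pool.Agent.PEN.AvA
import Pool.Agent.Pcl.PhiR

/-! PEN / PhE (size 3): intersection with an invariant form commutes with scalings, modulo rational
equivalence on the moved subvariety. -/

set_option linter.unusedSectionVars false

open MvPolynomial

namespace Pool.Agent.Bloch.PEN

open Pool.Agent.Bloch.Sep Pool.Agent.Bloch.Pcl

variable {K : Type} [Field K] (𝕜 : Type) [Field 𝕜] [CharZero 𝕜] {σ : Type} [Fintype σ]

theorem mv_phi (c : σ → K) (hc : ∀ s, c s ≠ 0) {k d : ℕ} {g : MvPolynomial σ K}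
    (hg : scl K c g = g) {T : PrimeSpectrum (MvPolynomial σ K)} (hT : HomP T)
    (hd : dl K T = k + 1) {Z : Set (PrimeSpectrum (MvPolynomial σ K))}
    (hZ : ctr K (scl K c) T ∈ Z) :
    mv 𝕜 c (Phi 𝕜 k g d (Finsupp.single T 1)) -
      Phi 𝕜 k g d (Finsupp.single (ctr K (scl K c) T) 1) ∈ RH 𝕜 k Z := by
  have hmem : g ∈ (ctr K (scl K c) T).asIdeal ↔ g ∈ T.asIdeal := by rw [mem_ctr, hg]
  have hd' : dl K (ctr K (scl K c) T) = k + 1 := by rw [dl_scl c hc, hd]
  by_cases hgT : g ∈ T.asIdeal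
  · rw [phi_single_of_mem 𝕜 hgT, phi_single_of_mem 𝕜 (hmem.2 hgT), map_smul, ← smul_sub]
    apply Submodule.smul_mem
    have hX : ∀ s, (X s ∈ (ctr K (scl K c) T).asIdeal ↔ (X s : MvPolynomial σ K) ∈ T.asIdeal) := by
      intro s
      rw [mem_ctr, scl_X]
      constructor
      · intro h
        have h2 := Ideal.mul_mem_left _ (C (c s)⁻¹) h
        rwa [← mul_assoc, ← C_mul, Algebra.algebraMap_self, RingHom.id_apply,
          inv_mul_cancel₀ (hc s), C_1, one_mul] at h2
      · intro h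
        exact Ideal.mul_mem_left _ _ h
    by_cases h : ∃ s, (X s : MvPolynomial σ K) ∉ T.asIdeal
    · have h' : ∃ s, (X s : MvPolynomial σ K) ∉ (ctr K (scl K c) T).asIdeal := by
        obtain ⟨s, hs⟩ := h
        exact ⟨s, fun h => hs ((hX s).1 h)⟩
      unfold Hs
      rw [dif_pos h, dif_pos h']
      have h1 : scl K c (C (c h.choose)⁻¹ * X h.choose) = X h.choose := by
        rw [map_mul, scl_C, scl_X, Algebra.algebraMap_self, RingHom.id_apply, ← mul_assoc,
          ← C_mul, inv_mul_cancel₀ (hc _), C_1, one_mul]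
      have h2 : C (c h.choose)⁻¹ * X h.choose ∉ (ctr K (scl K c) T).asIdeal := by
        rw [mem_ctr, h1]; exact h.choose_spec
      have h3 := mv_div 𝕜 c hc hd h2
      rw [h1] at h3
      rw [h3]
      have h4 : (C (c h.choose)⁻¹ * X h.choose : MvPolynomial σ K).IsHomogeneous 1 := by
        have := (isHomogeneous_C σ (c h.choose)⁻¹).mul (isHomogeneous_X K h.choose)
        rwa [zero_add] at this
      exact mem_RH 𝕜 hZ (homP_scl c hT) hd' h4 (isHomogeneous_X K _) h2 h'.choose_spec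
    · have h' : ¬ ∃ s, (X s : MvPolynomial σ K) ∉ (ctr K (scl K c) T).asIdeal := by
        rintro ⟨s, hs⟩
        exact h ⟨s, fun h => hs ((hX s).2 h)⟩
      unfold Hs
      rw [dif_neg h, dif_neg h', map_zero, sub_zero]
      exact Submodule.zero_mem _
  · have hg' : g ∉ (ctr K (scl K c) T).asIdeal := fun h => hgT (hmem.1 h)
    have h3 := mv_div 𝕜 c hc hd hg'
    rw [hg] at h3
    rw [phi_single_of_not 𝕜 hgT, phi_single_of_not 𝕜 hg', h3, sub_self]
    exact Submodule.zero_mem _

/-- the closed set of invariant polynomials is invariant -/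
theorem zs_scl (c : σ → K) {E : Set (MvPolynomial σ K)} (hE : ∀ f ∈ E, scl K c f = f) :
    ∀ Q ∈ Zs E, ctr K (scl K c) Q ∈ Zs E := by
  intro Q hQ f hf
  rw [mem_ctr, hE f hf]
  exact hQ f hf

end Pool.Agent.Bloch.PEN
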