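import Pool.Agent.PEN.NvI
import Pool.Agent.PEN.PpA
import Pool.Agent.PEN.PhE
import Pool.Agent.PEN.ExE
import Pool.Agent.Pcl.PB

/-! The pencil theorem. -/

set_option linter.unusedSectionVars false

open MvPolynomial

namespace Pool.Agent.Bloch.PEN

open Pool.Agent.Bloch.Sep Pool.Agent.Bloch.Pcl

attribute [local instance] MvPolynomial.algebraMvPolynomial

variable {K : Type} [Field K] {σ : Type} [Fintype σ] (𝕜 : Type) [Field 𝕜] [CharZero 𝕜]

/-- the degree of a hyperplane section -/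
theorem degc_hs {k : ℕ} {T : PrimeSpectrum (MvPolynomial σ K)} (hT : HomP T)
    (hd : dl K T = k + 2) {s : σ} (hs : X s ∉ T.asIdeal) :
    degc 𝕜 k (divCyc K 𝕜 (k + 1) T (X s)) ≠ 0 := by
  rw [dg_div 𝕜 hT hd (isHomogeneous_X K s) hs, Nat.cast_one, one_mul]
  have h := dg_pos (k := k + 1) hT hd
  exact_mod_cast h.ne'

theorem mv_sub {c : σ → K} {Gm : Set (σ → K)} (hc : c ∈ Gm) (hnz : ∀ s, c s ≠ 0) {k : ℕ}
    {Z : Set (PrimeSpectrum (MvPolynomial σ K))} (hZ : ∀ Q ∈ Z, ctr K (scl K c) Q ∈ Z)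
    (w : VH Z k →₀ 𝕜) : res 𝕜 Z k (mv 𝕜 c (inc 𝕜 Z k w)) - w ∈ IGs 𝕜 Z k Gm := by
  induction w using Finsupp.induction_linear with
  | zero => rw [map_zero, map_zero, map_zero, sub_zero]; exact Submodule.zero_mem _
  | add x y hx hy =>
    rw [map_add, map_add, map_add, add_sub_add_comm]
    exact Submodule.add_mem _ hx hy
  | single V x =>
    rw [inc_single, mv_single]
    have h := (res_single 𝕜 Z k (⟨ctr K (scl K c) V.1, homP_scl c V.2.1, hZ _ V.2.2.1, by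
      rw [dl_scl c hnz]; exact V.2.2.2⟩ : VH Z k) x)
    rw [h]
    have h2 : ∀ V₀ : VH Z k, Finsupp.single V₀ x = x • Finsupp.single V₀ (1 : 𝕜) := fun V₀ => by
      rw [Finsupp.smul_single, smul_eq_mul, mul_one]
    rw [h2, h2 V, ← smul_sub]
    exact Submodule.smul_mem _ _ (Submodule.subset_span ⟨c, hc, V, _, rfl, rfl⟩)

theorem inc_res' {Z : Set (PrimeSpectrum (MvPolynomial σ K))} {k : ℕ}
    {z : PrimeSpectrum (MvPolynomial σ K) →₀ 𝕜} (hz : Sup 𝕜 z Z k) :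
    inc 𝕜 Z k (res 𝕜 Z k z) = z := inc_res 𝕜 z hz

/-- a relation between cycles on `Y` is mapped by `Phi` to a relation on `X` -/
theorem phi_NN {Gf : Finset (σ → K)} (hGf : Grp Gf) {E E' : Set (MvPolynomial σ K)}
    {g : MvPolynomial σ K} {d k : ℕ} (hg : g.IsHomogeneous d)
    (hinv : ∀ c ∈ Gf, ∀ f ∈ E', scl K c f = f) (hinvg : ∀ c ∈ Gf, scl K c g = g)
    (hE : ∀ Q : PrimeSpectrum (MvPolynomial σ K), Q ∈ Zs E → g ∈ Q.asIdeal → Q ∈ Zs E')
    {y : VH (Zs E) (k + 2) →₀ 𝕜} (hy : y ∈ NN 𝕜 (Zs E) (k + 2) (Gf : Set (σ → K))) :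
    res 𝕜 (Zs E') (k + 1) (Phi 𝕜 (k + 1) g d (inc 𝕜 (Zs E) (k + 2) y)) ∈
      NN 𝕜 (Zs E') (k + 1) (Gf : Set (σ → K)) := by
  have key : NN 𝕜 (Zs E) (k + 2) (Gf : Set (σ → K)) ≤
      (NN 𝕜 (Zs E') (k + 1) (Gf : Set (σ → K))).comap
        ((res 𝕜 (Zs E') (k + 1) ∘ₗ Phi 𝕜 (k + 1) g d) ∘ₗ inc 𝕜 (Zs E) (k + 2)) := by
    refine sup_le ?_ ?_
    · intro z hz
      rw [Submodule.mem_comap, LinearMap.comp_apply, LinearMap.comp_apply]
      have h1 := inc_relH 𝕜 (zs_up E) hz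
      have h2 := phi_RH 𝕜 (zs_up E) hg h1
      have h3 := RH_mono 𝕜 (Z' := Zs E') (fun Q (hQ : Q ∈ Zs E ∧ g ∈ Q.asIdeal) =>
        hE Q hQ.1 hQ.2) h2
      exact Submodule.mem_sup_left (res_RH 𝕜 h3)
    · refine Submodule.span_le.2 ?_
      rintro z ⟨c, hc, V, V', hV, rfl⟩
      have hc' : c ∈ Gf := hc
      change _ ∈ Submodule.comap _ _
      rw [Submodule.mem_comap, LinearMap.comp_apply, LinearMap.comp_apply, map_sub, inc_single,
        inc_single, map_sub, hV]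
      -- the difference is a relation plus a difference of moved cycles
      have h1 : Phi 𝕜 (k + 1) g d (Finsupp.single (ctr K (scl K c) V.1) 1) -
          Phi 𝕜 (k + 1) g d (Finsupp.single V.1 1) =
          (mv 𝕜 c (Phi 𝕜 (k + 1) g d (Finsupp.single V.1 1)) -
            Phi 𝕜 (k + 1) g d (Finsupp.single V.1 1)) -
          (mv 𝕜 c (Phi 𝕜 (k + 1) g d (Finsupp.single V.1 1)) -
            Phi 𝕜 (k + 1) g d (Finsupp.single (ctr K (scl K c) V.1) 1)) := by abel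
      rw [h1, map_sub, map_sub]
      have hS : Sup 𝕜 (Phi 𝕜 (k + 1) g d (Finsupp.single V.1 1)) (Zs E') (k + 1) := by
        intro q hq
        obtain ⟨h2, h3, h4, h5⟩ := phi_supp 𝕜 hg V.2.1 V.2.2.2 hq
        exact ⟨h2, hE q (zs_up E V.1 V.2.2.1 q h3) h5, h4⟩
      refine Submodule.sub_mem _ ?_ ?_
      · have h2 := mv_sub 𝕜 (Gm := (Gf : Set (σ → K))) hc (hGf.nz c hc')
          (zs_scl c (hinv c hc')) (res 𝕜 (Zs E') (k + 1)
            (Phi 𝕜 (k + 1) g d (Finsupp.single V.1 1)))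
        rw [inc_res' 𝕜 hS] at h2
        exact Submodule.mem_sup_right h2
      · by_cases hgV : g ∈ V.1.asIdeal
        · have h3 := mv_phi 𝕜 c (hGf.nz c hc') (d := d) (hinvg c hc') V.2.1 V.2.2.2
            (zs_scl c (hinv c hc') _ (hE V.1 V.2.2.1 hgV))
          exact Submodule.mem_sup_left (res_RH 𝕜 h3)
        · have hg' : g ∉ (ctr K (scl K c) V.1).asIdeal := by
            rw [mem_ctr, hinvg c hc']; exact hgV
          have h3 := mv_div 𝕜 c (hGf.nz c hc') V.2.2.2 hg'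
          rw [hinvg c hc'] at h3
          rw [phi_single_of_not 𝕜 hgV, phi_single_of_not 𝕜 hg', h3, sub_self, map_zero]
          exact Submodule.zero_mem _
  exact key hy

/-- the contribution of the members of the pencil -/
theorem phi_member {Gf : Finset (σ → K)} (hGf : Grp Gf) {E E' : Set (MvPolynomial σ K)}
    {g : MvPolynomial σ K} {d k : ℕ} (hg : g.IsHomogeneous d)
    (hinv : ∀ c ∈ Gf, ∀ f ∈ E', scl K c f = f) (hinvg : ∀ c ∈ Gf, scl K c g = g)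
    (hE : ∀ Q : PrimeSpectrum (MvPolynomial σ K), Q ∈ Zs E → g ∈ Q.asIdeal → Q ∈ Zs E')
    (h : PP 𝕜 (Zs E) (k + 2) (Gf : Set (σ → K))) (w0 : PrimeSpectrum (MvPolynomial σ K))
    (hw : HomP w0) (hwE : w0 ∈ Zs E) (hwd : dl K w0 = k + 2) (hwg : g ∈ w0.asIdeal)
    (D : PrimeSpectrum (MvPolynomial σ K)) (hD : HomP D) (hDE : D ∈ Zs E) (hDd : dl K D = k + 2) :
    res 𝕜 (Zs E') (k + 1) (Phi 𝕜 (k + 1) g d (Finsupp.single D 1)) ∈
      NN 𝕜 (Zs E') (k + 1) (Gf : Set (σ → K)) ⊔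
        Submodule.span 𝕜 {res 𝕜 (Zs E') (k + 1) (Hs 𝕜 (k + 1) w0)} := by
  obtain ⟨c, hc⟩ := (PP_iff 𝕜 _ _ _).1 h ⟨D, hD, hDE, hDd⟩ ⟨w0, hw, hwE, hwd⟩
  have h1 := phi_NN 𝕜 hGf hg hinv hinvg hE hc
  rw [map_sub, map_smul, inc_single, inc_single, map_sub, map_smul, map_sub, map_smul,
    phi_single_of_mem 𝕜 hwg, map_smul] at h1
  have h2 : res 𝕜 (Zs E') (k + 1) (Phi 𝕜 (k + 1) g d (Finsupp.single D 1)) =
      (res 𝕜 (Zs E') (k + 1) (Phi 𝕜 (k + 1) g d (Finsupp.single D 1)) -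
        c • (d : 𝕜) • res 𝕜 (Zs E') (k + 1) (Hs 𝕜 (k + 1) w0)) +
      c • (d : 𝕜) • res 𝕜 (Zs E') (k + 1) (Hs 𝕜 (k + 1) w0) := by abel
  rw [h2]
  exact Submodule.add_mem _ (Submodule.mem_sup_left h1) (Submodule.mem_sup_right
    (Submodule.smul_mem _ _ (Submodule.smul_mem _ _ (Submodule.mem_span_singleton_self _))))

theorem pushSupp {Z : Set (PrimeSpectrum (MvPolynomial σ K))} {k : ℕ}
    {y z : PrimeSpectrum (MvPolynomial σ K) →₀ 𝕜} (hy : Sup 𝕜 y Z k) (hz : Sup 𝕜 z Z k) (c : 𝕜) :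
    Sup 𝕜 (y - c • z) Z k := by
  intro q hq
  by_cases h1 : y q = 0
  · by_cases h2 : z q = 0
    · exfalso
      apply hq
      rw [Finsupp.sub_apply, Finsupp.smul_apply, h1, h2, smul_zero, sub_zero]
    · exact hz q h2
  · exact hy q h1

theorem single_supp {Z : Set (PrimeSpectrum (MvPolynomial σ K))} {k : ℕ} (V : VH Z k) :
    Sup 𝕜 (Finsupp.single V.1 (1 : 𝕜)) Z k := by
  classical
  intro q hq
  rw [Finsupp.single_apply] at hq
  split_ifs at hq with h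
  · rw [← h]; exact V.2
  · exact absurd rfl hq

/-- the contributions of the members together -/
theorem ys_mem {k d : ℕ} {F G : MvPolynomial σ K}
    {S : PrimeSpectrum (MvPolynomial σ K) →₀ 𝕜}
    {N : Submodule 𝕜 (PrimeSpectrum (MvPolynomial σ K) →₀ 𝕜)}
    (h1 : ∀ T, S T ≠ 0 → G ∈ T.asIdeal → Phi 𝕜 k F d (Finsupp.single T 1) ∈ N)
    (h2 : ∀ T, S T ≠ 0 → G ∉ T.asIdeal → Phi 𝕜 k G d (Finsupp.single T 1) ∈ N) :
    Ys 𝕜 k d F G S ∈ N := by
  unfold Ys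
  rw [Finsupp.linearCombination_apply]
  refine Submodule.sum_mem _ (fun T hT => Submodule.smul_mem _ _ ?_)
  rw [Finsupp.mem_support_iff] at hT
  beta_reduce
  split_ifs with h
  · exact h1 T hT h
  · exact h2 T hT h

/-- Pencils: proportionality of all subvarieties of dimension `k` of the generic member of a pencil
and of all subvarieties of dimension `k + 1` of the members implies proportionality for the
subvarieties of dimension `k` of the base locus, if there is a subvariety of dimension `k + 1` in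
the base locus. -/
theorem pencil [IsAlgClosed K] (E : Set (MvPolynomial σ K)) {F G : MvPolynomial σ K} {d : ℕ}
    (hF : F.IsHomogeneous d) (hG : G.IsHomogeneous d) {Gf : Finset (σ → K)} (hGf : Grp Gf)
    (hEi : ∀ c ∈ Gf, ∀ f ∈ E, scl K c f = f) (hFi : ∀ c ∈ Gf, scl K c F = F)
    (hGi : ∀ c ∈ Gf, scl K c G = G) {k : ℕ}
    (w0 : VH (Zs (E ∪ {F, G})) (k + 2))
    (hA : PP 𝕜 {Q | Q ∈ ZF E ∧ Pcl.gm F G ∈ Q.asIdeal} (k + 1)
      {c' | ∃ c ∈ (Gf : Set (σ → K)), c' = fun s => algebraMap K (Fn K) (c s)})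
    (hB : ∀ l : K, PP 𝕜 (Zs (E ∪ {F + C l * G})) (k + 2) (Gf : Set (σ → K)))
    (hB' : PP 𝕜 (Zs (E ∪ {G})) (k + 2) (Gf : Set (σ → K))) :
    PP 𝕜 (Zs (E ∪ {F, G})) (k + 1) (Gf : Set (σ → K)) := by
  classical
  set X : Set (PrimeSpectrum (MvPolynomial σ K)) := Zs (E ∪ {F, G}) with hX
  set Y : Set (PrimeSpectrum (MvPolynomial σ (Fn K))) := {Q | Q ∈ ZF E ∧ Pcl.gm F G ∈ Q.asIdeal}
    with hY
  have hmemX : ∀ Q : PrimeSpectrum (MvPolynomial σ K), Q ∈ X ↔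
      (∀ f ∈ E, f ∈ Q.asIdeal) ∧ F ∈ Q.asIdeal ∧ G ∈ Q.asIdeal := by
    intro Q
    constructor
    · intro h
      exact ⟨fun f hf => h f (Or.inl hf), h F (Or.inr (Or.inl rfl)), h G (Or.inr (Or.inr rfl))⟩
    · rintro ⟨h1, h2, h3⟩ f hf
      rcases hf with hf | hf | hf
      · exact h1 f hf
      · rw [hf]; exact h2
      · rw [Set.mem_singleton_iff.1 hf]; exact h3
  have hinv : ∀ c ∈ Gf, ∀ f ∈ E ∪ {F, G}, scl K c f = f := by
    intro c hc f hf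
    rcases hf with hf | hf | hf
    · exact hEi c hc f hf
    · rw [hf]; exact hFi c hc
    · rw [Set.mem_singleton_iff.1 hf]; exact hGi c hc
  have hXs : ∀ c ∈ Gf, ∀ Q ∈ X, ctr K (scl K c) Q ∈ X := fun c hc => zs_scl c (hinv c hc)
  have hXup : ∀ p ∈ X, ∀ q, p ≤ q → q ∈ X := zs_up _
  have hYup : ∀ p ∈ Y, ∀ q, p ≤ q → q ∈ Y := by
    rintro p ⟨h1, h2⟩ q hpq
    exact ⟨zs_up _ p h1 q hpq, hpq h2⟩
  -- extension of subvarieties of `X`
  have hXY : ∀ T : PrimeSpectrum (MvPolynomial σ K), T ∈ X → eT T ∈ Y := by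
    intro T hT
    rw [hmemX] at hT
    refine ⟨(eT_mem_ZF E T).2 hT.1, ?_⟩
    unfold Pcl.gm
    exact Ideal.add_mem _ ((bc_mem_eT T F).2 hT.2.1) (Ideal.mul_mem_left _ _
      ((bc_mem_eT T G).2 hT.2.2))
  have hYs : ∀ c ∈ upG Gf, ∀ Q ∈ Y, ctr (Fn K) (scl (Fn K) c) Q ∈ Y := by
    intro c hc Q hQ
    have hc' : c ∈ ((upG Gf : Finset (σ → Fn K)) : Set (σ → Fn K)) := hc
    rw [mem_upG] at hc'
    obtain ⟨c₀, hc₀, rfl⟩ := hc'
    have hc₁ : c₀ ∈ Gf := hc₀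
    refine ⟨?_, ?_⟩
    · rintro f ⟨f₀, hf₀, rfl⟩
      rw [mem_ctr]
      have h1 := scl_up c₀ f₀
      rw [hEi c₀ hc₁ f₀ hf₀] at h1
      have h2 : scl (Fn K) (fun s => algebraMap K (Fn K) (c₀ s)) (bc f₀) = bc f₀ := h1
      rw [h2]
      exact hQ.1 _ ⟨f₀, hf₀, rfl⟩
    · rw [mem_ctr]
      have h1 := scl_up_mu c₀ F G
      rw [hFi c₀ hc₁, hGi c₀ hc₁] at h1
      have h2 : scl (Fn K) (fun s => algebraMap K (Fn K) (c₀ s)) (Pcl.gm F G) = Pcl.gm F G := h1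
      rw [h2]
      exact hQ.2
  -- the hyperplane section of `w0`
  have hs0 : ∃ s, (MvPolynomial.X s : MvPolynomial σ K) ∉ w0.1.asIdeal := by
    by_contra h
    push Not at h
    have := dl_vars K w0.1 h
    rw [w0.2.2.2] at this
    omega
  have hHs : Hs 𝕜 (k + 1) w0.1 = divCyc K 𝕜 (k + 1) w0.1 (MvPolynomial.X hs0.choose) := by
    unfold Hs
    rw [dif_pos hs0]
  have hzS : Sup 𝕜 (Hs 𝕜 (k + 1) w0.1) X (k + 1) := by
    intro q hq
    obtain ⟨h1, h2, h3⟩ := hs_supp 𝕜 w0.2.1 w0.2.2.2 hq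
    exact ⟨h1, hXup _ w0.2.2.1 q h2, h3⟩
  set z0 := Hs 𝕜 (k + 1) w0.1 with hz0
  have hexS : ∀ y : PrimeSpectrum (MvPolynomial σ K) →₀ 𝕜, Sup 𝕜 y X (k + 1) →
      Sup 𝕜 (ex 𝕜 y) Y (k + 1) := by
    intro y hy Q hQ
    obtain ⟨T, rfl, hT⟩ := ex_apply_ne_zero 𝕜 hQ
    obtain ⟨h1, h2, h3⟩ := hy T hT
    exact ⟨homP_eT h1, hXY T h2, by rw [dl_eT]; exact h3⟩
  -- degrees
  have hdegL : degH 𝕜 Y k (res 𝕜 Y (k + 1) (ex 𝕜 z0)) ≠ 0 := by
    unfold degH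
    rw [LinearMap.comp_apply, inc_res' 𝕜 (hexS z0 hzS), hHs, ex_div 𝕜 w0.2.2.2 hs0.choose_spec]
    have h1 : bc (MvPolynomial.X hs0.choose : MvPolynomial σ K) = MvPolynomial.X hs0.choose := by
      exact map_X _ _
    rw [h1]
    refine degc_hs 𝕜 (homP_eT w0.2.1) (by rw [dl_eT]; exact w0.2.2.2) ?_
    rw [← h1, bc_mem_eT]
    exact hs0.choose_spec
  have hnz : ∀ c ∈ {c' : σ → Fn K | ∃ c ∈ (Gf : Set (σ → K)),
      c' = fun s => algebraMap K (Fn K) (c s)}, ∀ s, c s ≠ 0 := by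
    rintro c ⟨c₀, hc₀, rfl⟩ s
    exact (map_ne_zero _).2 (hGf.nz c₀ hc₀ s)
  -- every subvariety is a multiple of the hyperplane section of `w0`
  have main : ∀ V : VH X (k + 1), ∃ c : 𝕜, Finsupp.single V (1 : 𝕜) -
      c • res 𝕜 X (k + 1) z0 ∈ NN 𝕜 X (k + 1) (Gf : Set (σ → K)) := by
    intro V
    obtain ⟨c, hc⟩ := pp_deg 𝕜 hA (degH 𝕜 Y k) (degH_ker 𝕜 hYup k _ hnz) hdegL
      (⟨eT V.1, homP_eT V.2.1, hXY _ V.2.2.1, by rw [dl_eT]; exact V.2.2.2⟩ : VH Y (k + 1))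
    set y : PrimeSpectrum (MvPolynomial σ K) →₀ 𝕜 := Finsupp.single V.1 1 - c • z0 with hy
    have hyS : Sup 𝕜 y X (k + 1) := pushSupp 𝕜 (single_supp 𝕜 V) hzS c
    -- the averaged relation
    have h1 : ex 𝕜 (av 𝕜 Gf y) ∈ RH 𝕜 (k + 1) Y := by
      rw [ex_av 𝕜 hGf]
      rw [← mem_upG] at hc
      have h2 := av_NN 𝕜 (grp_up hGf) hYup hYs hc
      rw [map_sub, map_smul, inc_single, inc_res' 𝕜 (hexS z0 hzS)] at h2
      rw [hy, map_sub (ex 𝕜), map_smul, ex_single]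
      exact h2
    have hav : Sup 𝕜 (av 𝕜 Gf y) X (k + 1) := by
      intro q hq
      rw [av_apply] at hq
      have : ∃ c₁ ∈ Gf, mv 𝕜 c₁ y q ≠ 0 := by
        by_contra h
        push Not at h
        apply hq
        rw [Finsupp.finsetSum_apply]
        exact Finset.sum_eq_zero h
      obtain ⟨c₁, hc₁, h3⟩ := this
      obtain ⟨T, hT, rfl⟩ := Finset.mem_image.1 (Finsupp.mapDomain_support
        (Finsupp.mem_support_iff.2 h3))
      obtain ⟨h4, h5, h6⟩ := hyS T (Finsupp.mem_support_iff.1 hT)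
      exact ⟨homP_scl c₁ h4, hXs c₁ hc₁ T h5, by rw [dl_scl c₁ (hGf.nz c₁ hc₁)]; exact h6⟩
    obtain ⟨S, hS1, hS2⟩ := pencil_B 𝕜 hF hG hav h1
    -- the contributions of the members
    have hYsS : Ys 𝕜 (k + 1) d F G S ∈ (NN 𝕜 X (k + 1) (Gf : Set (σ → K)) ⊔
        Submodule.span 𝕜 {res 𝕜 X (k + 1) z0}).comap (res 𝕜 X (k + 1)) := by
      apply ys_mem
      · intro T hT hGT
        obtain ⟨h3, h4, h5, -⟩ := hS1 T hT
        have hT' : T ∈ Zs (E ∪ {G}) := by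
          rintro f (hf | hf)
          · exact h4 f hf
          · rw [Set.mem_singleton_iff.1 hf]; exact hGT
        refine phi_member 𝕜 hGf hF hinv hFi ?_ hB' w0.1 w0.2.1 ?_ w0.2.2.2
          (((hmemX _).1 w0.2.2.1).2.1) T h3 hT' h5
        · intro Q hQ hFQ
          exact (hmemX Q).2 ⟨fun f hf => hQ f (Or.inl hf), hFQ, hQ G (Or.inr rfl)⟩
        · have := (hmemX _).1 w0.2.2.1
          rintro f (hf | hf)
          · exact this.1 f hf
          · rw [Set.mem_singleton_iff.1 hf]; exact this.2.2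
      · intro T hT hGT
        obtain ⟨h3, h4, h5, h6⟩ := hS1 T hT
        obtain ⟨l, hl⟩ := h6.resolve_left hGT
        have hT' : T ∈ Zs (E ∪ {F + C l * G}) := by
          rintro f (hf | hf)
          · exact h4 f hf
          · rw [Set.mem_singleton_iff.1 hf]; exact hl
        refine phi_member 𝕜 hGf hG hinv hGi ?_ (hB l) w0.1 w0.2.1 ?_ w0.2.2.2
          (((hmemX _).1 w0.2.2.1).2.2) T h3 hT' h5
        · intro Q hQ hGQ
          refine (hmemX Q).2 ⟨fun f hf => hQ f (Or.inl hf), ?_, hGQ⟩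
          have h7 := hQ (F + C l * G) (Or.inr rfl)
          have h8 := Ideal.sub_mem _ h7 (Ideal.mul_mem_left _ (C l) hGQ)
          rwa [add_sub_cancel_right] at h8
        · have := (hmemX _).1 w0.2.2.1
          rintro f (hf | hf)
          · exact this.1 f hf
          · rw [Set.mem_singleton_iff.1 hf]
            exact Ideal.add_mem _ this.2.1 (Ideal.mul_mem_left _ _ this.2.2)
    have h2 : res 𝕜 X (k + 1) (av 𝕜 Gf y) ∈ NN 𝕜 X (k + 1) (Gf : Set (σ → K)) ⊔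
        Submodule.span 𝕜 {res 𝕜 X (k + 1) z0} := by
      have h3 : av 𝕜 Gf y = (av 𝕜 Gf y - Ys 𝕜 (k + 1) d F G S) + Ys 𝕜 (k + 1) d F G S := by abel
      rw [h3, map_add]
      exact Submodule.add_mem _ (Submodule.mem_sup_left (Submodule.mem_sup_left
        (res_RH 𝕜 hS2))) hYsS
    have h3 := av_sub 𝕜 hGf hXs (res 𝕜 X (k + 1) y)
    rw [inc_res' 𝕜 hyS] at h3
    have h4 : (Gf.card : 𝕜) • res 𝕜 X (k + 1) y ∈ NN 𝕜 X (k + 1) (Gf : Set (σ → K)) ⊔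
        Submodule.span 𝕜 {res 𝕜 X (k + 1) z0} := by
      have h5 : (Gf.card : 𝕜) • res 𝕜 X (k + 1) y = ((Gf.card : 𝕜) • res 𝕜 X (k + 1) y -
        res 𝕜 X (k + 1) (av 𝕜 Gf y)) + res 𝕜 X (k + 1) (av 𝕜 Gf y) := by abel
      rw [h5]
      exact Submodule.add_mem _ (Submodule.mem_sup_left (Submodule.mem_sup_right h3)) h2
    have hcard : (Gf.card : 𝕜) ≠ 0 := by
      rw [Nat.cast_ne_zero]
      exact (Finset.card_pos.2 ⟨_, hGf.one⟩).ne'
    have h5 : res 𝕜 X (k + 1) y ∈ NN 𝕜 X (k + 1) (Gf : Set (σ → K)) ⊔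
        Submodule.span 𝕜 {res 𝕜 X (k + 1) z0} := by
      have := Submodule.smul_mem _ (Gf.card : 𝕜)⁻¹ h4
      rwa [inv_smul_smul₀ hcard] at this
    obtain ⟨n, hn, x, hx, hnx⟩ := Submodule.mem_sup.1 h5
    obtain ⟨a, rfl⟩ := Submodule.mem_span_singleton.1 hx
    refine ⟨c + a, ?_⟩
    rw [hy, map_sub, map_smul, res_single] at hnx
    have h6 : Finsupp.single V (1 : 𝕜) - (c + a) • res 𝕜 X (k + 1) z0 = n := by
      rw [add_smul, ← sub_sub, ← hnx]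
      abel
    rw [h6]
    exact hn
  exact pp_of 𝕜 (degH 𝕜 X k) (degH_single 𝕜) (degH_ker 𝕜 hXup k _ (fun c hc => hGf.nz c hc)) main

end Pool.Agent.Bloch.PEN
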